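import Pool.Agent.H46.Nev.Exist

set_option autoImplicit false

open MeasureTheory Filter Topology Set
open scoped Real LinearAlgebra.Projectivization ComplexConjugate InnerProductSpace

namespace Pool.Agent.H46.Nev

section

variable {ι κ : Type} [Fintype ι] [Fintype κ]

lemma inner_eq_sum (v w : E ι) : inner ℂ v w = ∑ i, conj (v i) * w i := by
  rw [PiLp.inner_apply]
  refine Finset.sum_congr rfl fun i _ => ?_
  simp [mul_comm]

lemma inner_tens (v v' : E ι) (w w' : E κ) :
    inner ℂ (tens v w) (tens v' w') = inner ℂ v v' * inner ℂ w w' := by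
  rw [inner_eq_sum, inner_eq_sum, inner_eq_sum, Finset.sum_mul_sum, Fintype.sum_prod_type]
  refine Finset.sum_congr rfl fun i _ => Finset.sum_congr rfl fun j _ => ?_
  simp only [tens_apply, map_mul]
  ring

lemma inner_wedge (v w v' w' : E ι) :
    inner ℂ (wedge v w) (wedge v' w') =
      2 * (inner ℂ v v' * inner ℂ w w' - inner ℂ v w' * inner ℂ w v') := by
  have h1 : ∀ i j, conj (v i * w j - v j * w i) * (v' i * w' j - v' j * w' i) =
      (conj (v i) * v' i) * (conj (w j) * w' j) - (conj (v i) * w' i) * (conj (w j) * v' j)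
      - (conj (w i) * v' i) * (conj (v j) * w' j) + (conj (w i) * w' i) * (conj (v j) * v' j) := by
    intro i j
    simp only [map_sub, map_mul]
    ring
  rw [inner_eq_sum, Fintype.sum_prod_type]
  simp only [wedge_apply, h1]
  simp only [Finset.sum_add_distrib, Finset.sum_sub_distrib, ← Finset.mul_sum, ← Finset.sum_mul]
  simp only [← inner_eq_sum]
  ring

end

/-- the point of `D2` attached to a frame -/
noncomputable def pt (x y z : E I0) : Y :=
  mkY x (wedge x y) (wedge (tens x (wedge x y)) (tens x (wedge x z)))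

lemma pt_eq (x y z : E I0) : point2 x y z 0 1 = pt x y z := by
  rw [point2, dirVec_01, pt]

lemma pt_smul {a b c : ℂ} (ha : a ≠ 0) (hb : b ≠ 0) (hc : c ≠ 0) (x y z : E I0) :
    pt (a • x) (b • y) (c • z) = pt x y z := by
  have h1 : tens (a • x) ((a * b) • wedge x y) = (a * (a * b)) • tens x (wedge x y) := by
    ext p
    simp only [tens_apply, PiLp.smul_apply, smul_eq_mul]
    ring
  have h2 : tens (a • x) ((a * c) • wedge x z) = (a * (a * c)) • tens x (wedge x z) := by
    ext p
    simp only [tens_apply, PiLp.smul_apply, smul_eq_mul]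
    ring
  unfold pt mkY
  rw [wedge_smul_smul, wedge_smul_smul, h1, h2, wedge_smul_smul, toP_smul ha,
    toP_smul (mul_ne_zero ha hb)]
  rw [toP_smul]
  exact mul_ne_zero (mul_ne_zero ha (mul_ne_zero ha hb)) (mul_ne_zero ha (mul_ne_zero ha hc))

lemma pt_shear (x y z : E I0) (c d e : ℂ) :
    pt x (y + c • x) (z + d • x + e • y) = pt x y z := by
  have h1 : wedge x (y + c • x) = wedge x y := by
    ext p
    simp only [wedge_apply, PiLp.add_apply, PiLp.smul_apply, smul_eq_mul]
    ring
  have h2 : wedge (tens x (wedge x y)) (tens x (wedge x (z + d • x + e • y))) =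
      wedge (tens x (wedge x y)) (tens x (wedge x z)) := by
    ext p
    simp only [wedge_apply, tens_apply, PiLp.add_apply, PiLp.smul_apply, smul_eq_mul]
    ring
  unfold pt
  rw [h1, h2]

/-- orthonormal frames -/
def Fr : Set (E I0 × E I0 × E I0) :=
  {p | ‖p.1‖ = 1 ∧ ‖p.2.1‖ = 1 ∧ ‖p.2.2‖ = 1 ∧ inner ℂ p.1 p.2.1 = 0 ∧ inner ℂ p.1 p.2.2 = 0 ∧
    inner ℂ p.2.1 p.2.2 = 0}

lemma isCompact_Fr : IsCompact Fr := by
  have h1 : Fr ⊆ Metric.closedBall (0 : E I0 × E I0 × E I0) 1 := by
    intro p hp
    rw [mem_closedBall_zero_iff, Prod.norm_def, Prod.norm_def]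
    exact max_le hp.1.le (max_le hp.2.1.le hp.2.2.1.le)
  refine (isCompact_closedBall (0 : E I0 × E I0 × E I0) 1).of_isClosed_subset ?_ h1
  refine IsClosed.inter (isClosed_eq (by fun_prop) continuous_const) ?_
  refine IsClosed.inter (isClosed_eq (by fun_prop) continuous_const) ?_
  refine IsClosed.inter (isClosed_eq (by fun_prop) continuous_const) ?_
  refine IsClosed.inter (isClosed_eq (by fun_prop) continuous_const) ?_
  refine IsClosed.inter (isClosed_eq (by fun_prop) continuous_const) ?_
  exact isClosed_eq (by fun_prop) continuous_const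

lemma frame_ne {p : E I0 × E I0 × E I0} (hp : p ∈ Fr) : p.1 ≠ 0 ∧ wedge p.1 p.2.1 ≠ 0 ∧
    wedge (tens p.1 (wedge p.1 p.2.1)) (tens p.1 (wedge p.1 p.2.2)) ≠ 0 := by
  obtain ⟨h1, h2, h3, h4, h5, h6⟩ := hp
  have hw1 : ‖wedge p.1 p.2.1‖ ^ 2 = 2 := by
    rw [norm_wedge_sq, h1, h2, h4]; norm_num
  have hw2 : ‖wedge p.1 p.2.2‖ ^ 2 = 2 := by
    rw [norm_wedge_sq, h1, h3, h5]; norm_num
  refine ⟨?_, ?_, ?_⟩
  · intro h; rw [h, norm_zero] at h1; norm_num at h1
  · intro h; rw [h, norm_zero] at hw1; norm_num at hw1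
  · intro h
    have h7 := norm_wedge_sq (tens p.1 (wedge p.1 p.2.1)) (tens p.1 (wedge p.1 p.2.2))
    rw [h, norm_tens, norm_tens, inner_tens, inner_wedge, h6, h5, h1, one_mul, one_mul, hw1, hw2]
      at h7
    norm_num at h7

lemma isCompact_D2 : IsCompact D2 := by
  have h : D2 = (fun p : E I0 × E I0 × E I0 => pt p.1 p.2.1 p.2.2) '' Fr := by
    ext q
    constructor
    · rintro ⟨x, y, z, hli, rfl⟩
      have hx : x ≠ 0 := by simpa using hli.ne_zero 0
      have key := Fintype.linearIndependent_iff.1 hli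
      -- Gram-Schmidt
      set a : ℂ := -(inner ℂ x y / inner ℂ x x) with ha
      have hxx : (inner ℂ x x : ℂ) ≠ 0 := inner_self_ne_zero.2 hx
      set y1 : E I0 := y + a • x with hy1
      have hy1x : inner ℂ x y1 = 0 := by
        rw [hy1, inner_add_right, inner_smul_right, ha]
        field_simp
        ring
      have hy1ne : y1 ≠ 0 := by
        intro h0
        have := key ![a, 1, 0] (by
          rw [Fin.sum_univ_three]
          simp only [Matrix.cons_val_zero, Matrix.cons_val_one, Matrix.cons_val]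
          rw [one_smul, zero_smul, add_zero, add_comm, ← hy1, h0]) 1
        simp at this
      have hyy : (inner ℂ y1 y1 : ℂ) ≠ 0 := inner_self_ne_zero.2 hy1ne
      set d : ℂ := -(inner ℂ x z / inner ℂ x x) with hd
      set e : ℂ := -(inner ℂ y1 z / inner ℂ y1 y1) with he
      set z1 : E I0 := z + d • x + e • y1 with hz1
      have hy1x' : inner ℂ y1 x = 0 := by
        rw [← inner_conj_symm, hy1x, map_zero]
      have hz1x : inner ℂ x z1 = 0 := by
        rw [hz1, inner_add_right, inner_add_right, inner_smul_right, inner_smul_right, hy1x, hd]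
        field_simp
        ring
      have hz1y : inner ℂ y1 z1 = 0 := by
        rw [hz1, inner_add_right, inner_add_right, inner_smul_right, inner_smul_right, hy1x', he]
        field_simp
        ring
      have hz1ne : z1 ≠ 0 := by
        intro h0
        have := key ![d + e * a, e, 1] (by
          rw [Fin.sum_univ_three]
          simp only [Matrix.cons_val_zero, Matrix.cons_val_one, Matrix.cons_val]
          have h9 : (d + e * a) • x + e • y + (1:ℂ) • z = z1 := by
            rw [hz1, hy1]
            module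
          rw [h9, h0]) 2
        simp at this
      have hpt : pt x y1 z1 = pt x y z := by
        have h8 : z1 = z + (d + e * a) • x + e • y := by
          rw [hz1, hy1]
          module
        rw [h8, hy1]
        exact pt_shear x y z a (d + e * a) e
      have nx : (‖x‖ : ℂ)⁻¹ ≠ 0 := inv_ne_zero (by exact_mod_cast norm_ne_zero_iff.2 hx)
      have ny : (‖y1‖ : ℂ)⁻¹ ≠ 0 := inv_ne_zero (by exact_mod_cast norm_ne_zero_iff.2 hy1ne)
      have nz : (‖z1‖ : ℂ)⁻¹ ≠ 0 := inv_ne_zero (by exact_mod_cast norm_ne_zero_iff.2 hz1ne)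
      have hnorm : ∀ v : E I0, v ≠ 0 → ‖(‖v‖ : ℂ)⁻¹ • v‖ = 1 := by
        intro v hv
        rw [norm_smul, norm_inv, Complex.norm_real, norm_norm, inv_mul_cancel₀ (norm_ne_zero_iff.2 hv)]
      refine ⟨((‖x‖ : ℂ)⁻¹ • x, (‖y1‖ : ℂ)⁻¹ • y1, (‖z1‖ : ℂ)⁻¹ • z1), ⟨hnorm x hx, hnorm y1 hy1ne,
        hnorm z1 hz1ne, ?_, ?_, ?_⟩, ?_⟩
      · simp only [inner_smul_left, inner_smul_right, hy1x, mul_zero]
      · simp only [inner_smul_left, inner_smul_right, hz1x, mul_zero]
      · simp only [inner_smul_left, inner_smul_right, hz1y, mul_zero]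
      · exact ((pt_smul nx ny nz x y1 z1).trans hpt).trans (pt_eq x y z).symm
    · rintro ⟨p, hp, rfl⟩
      refine ⟨p.1, p.2.1, p.2.2, ?_, (pt_eq _ _ _).symm⟩
      obtain ⟨h1, h2, h3, h4, h5, h6⟩ := hp
      have ho : Orthonormal ℂ ![p.1, p.2.1, p.2.2] := by
        constructor
        · intro i
          fin_cases i
          · exact h1
          · exact h2
          · exact h3
        · intro i j hij
          have h4' : inner ℂ p.2.1 p.1 = 0 := by rw [← inner_conj_symm, h4, map_zero]
          have h5' : inner ℂ p.2.2 p.1 = 0 := by rw [← inner_conj_symm, h5, map_zero]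
          have h6' : inner ℂ p.2.2 p.2.1 = 0 := by rw [← inner_conj_symm, h6, map_zero]
          fin_cases i <;> fin_cases j
          · exact absurd rfl hij
          · exact h4
          · exact h5
          · exact h4'
          · exact absurd rfl hij
          · exact h6
          · exact h5'
          · exact h6'
          · exact absurd rfl hij
      exact ho.linearIndependent
  rw [h]
  refine isCompact_Fr.image_of_continuousOn fun p hp => ContinuousAt.continuousWithinAt ?_
  obtain ⟨n1, n2, n3⟩ := frame_ne hp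
  have t1 : Tendsto (fun q : E I0 × E I0 × E I0 => q.1) (𝓝 p) (𝓝 p.1) := continuous_fst.continuousAt
  have t2 : Tendsto (fun q : E I0 × E I0 × E I0 => q.2.1) (𝓝 p) (𝓝 p.2.1) :=
    (continuous_fst.comp continuous_snd).continuousAt
  have t3 : Tendsto (fun q : E I0 × E I0 × E I0 => q.2.2) (𝓝 p) (𝓝 p.2.2) :=
    (continuous_snd.comp continuous_snd).continuousAt
  exact tendsto_mkY (tendsto_toP t1 n1) (tendsto_toP (tendsto_wedge t1 t2) n2)
    (tendsto_toP (tendsto_wedge (tendsto_tens t1 (tendsto_wedge t1 t2))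
      (tendsto_tens t1 (tendsto_wedge t1 t3))) n3)

end Pool.Agent.H46.Nev
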