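import Pool.Agent.H46.Nev.Jensen2

set_option autoImplicit false

open MeasureTheory Set Filter Topology
open scoped Real ComplexConjugate

namespace Pool.Agent.H46.Nev

lemma disc_integral {f : ℂ → ℝ} (hf : Continuous f) {s : ℝ} (hs : 0 ≤ s) :
    ∫ t in Metric.ball (0:ℂ) s, f t = ∫ ρ in (0:ℝ)..s, ∫ θ in (-π)..π, ρ * f (ρ * ee θ) := by
  have hπ : -π ≤ π := by linarith [Real.pi_pos]
  rw [← integral_indicator Metric.isOpen_ball.measurableSet,
    ← Complex.integral_comp_polarCoord_symm]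
  have hcont : Continuous (fun p : ℝ × ℝ => p.1 * f (p.1 * ee p.2)) :=
    continuous_fst.mul (hf.comp continuous_path)
  have h1 : ∫ p in polarCoord.target, p.1 • (Metric.ball (0:ℂ) s).indicator f (Complex.polarCoord.symm p) =
      ∫ p in Ioo 0 s ×ˢ Ioo (-π) π, p.1 * f (p.1 * ee p.2) := by
    rw [← integral_indicator (measurableSet_Ioo.prod measurableSet_Ioo),
      ← integral_indicator (by
        have : polarCoord.target = Ioi (0:ℝ) ×ˢ Ioo (-π) π := rfl
        rw [this]; exact measurableSet_Ioi.prod measurableSet_Ioo)]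
    congr 1
    funext p
    have htar : p ∈ polarCoord.target ↔ 0 < p.1 ∧ p.2 ∈ Ioo (-π) π := by
      have : polarCoord.target = Ioi (0:ℝ) ×ˢ Ioo (-π) π := rfl
      rw [this]; rfl
    have hsymm : Complex.polarCoord.symm p = p.1 * ee p.2 := by
      rw [Complex.polarCoord_symm_apply, ee, Complex.exp_mul_I, Complex.ofReal_cos, Complex.ofReal_sin]
    have hnorm : ‖(p.1 : ℂ) * ee p.2‖ = |p.1| := by
      rw [norm_mul, ee, Complex.norm_exp_ofReal_mul_I]; simp
    by_cases hp : p ∈ polarCoord.target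
    · have hp' := htar.1 hp
      rw [indicator_of_mem hp]
      by_cases hps : p.1 < s
      · rw [indicator_of_mem (s := Metric.ball (0:ℂ) s), indicator_of_mem, hsymm]
        · rfl
        · exact ⟨⟨hp'.1, hps⟩, hp'.2⟩
        · rw [hsymm, mem_ball_zero_iff, hnorm, abs_of_pos hp'.1]; exact hps
      · rw [indicator_of_notMem (s := Metric.ball (0:ℂ) s), indicator_of_notMem]
        · simp
        · intro h; exact hps h.1.2
        · rw [hsymm, mem_ball_zero_iff, hnorm, abs_of_pos hp'.1]; exact hps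
    · rw [indicator_of_notMem hp, indicator_of_notMem]
      intro h
      exact hp (htar.2 ⟨h.1.1, h.2⟩)
  rw [h1]
  have hK : IsCompact (Icc 0 s ×ˢ Icc (-π) π) := isCompact_Icc.prod isCompact_Icc
  have h2 : IntegrableOn (fun p : ℝ × ℝ => p.1 * f (p.1 * ee p.2)) (Icc 0 s ×ˢ Icc (-π) π) :=
    hcont.continuousOn.integrableOn_compact hK
  have h3 : IntegrableOn (fun p : ℝ × ℝ => p.1 * f (p.1 * ee p.2)) (Ioo 0 s ×ˢ Ioo (-π) π)
      (volume.prod volume) :=
    h2.mono_set (Set.prod_mono Ioo_subset_Icc_self Ioo_subset_Icc_self)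
  have h4 := setIntegral_prod _ h3
  rw [← Measure.volume_eq_prod] at h4
  rw [h4, intervalIntegral.integral_of_le hs, integral_Ioc_eq_integral_Ioo]
  refine setIntegral_congr_fun measurableSet_Ioo fun ρ _ => ?_
  simp only
  rw [intervalIntegral.integral_of_le hπ, integral_Ioc_eq_integral_Ioo]

section

variable {V : Type} [NormedAddCommGroup V] [InnerProductSpace ℂ V] [CompleteSpace V] {Φ : ℂ → V}

/-- the Jensen type identity -/
lemma nevMass_fs (hΦ : Differentiable ℂ Φ) (h0 : ∀ t, Φ t ≠ 0) {r : ℝ} (hr : 0 ≤ r) :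
    nevMass (fsDensity Φ) (fun _ => 1) r =
      (1 / (4 * π)) * (∫ θ in (-π)..π, (Real.log (NN Φ (r * ee θ)) - Real.log (NN Φ 0))) := by
  have hN : ∀ p : ℝ × ℝ, NN Φ ((p.1 : ℂ) * ee p.2) ≠ 0 := fun p => NN_ne h0 _
  let U : ℝ → ℝ → ℝ := fun ρ θ => 2 * (ee θ * bb Φ (ρ * ee θ)).re / NN Φ (ρ * ee θ)
  have hUc : Continuous (Function.uncurry U) := by
    have hw := continuous_w hΦ
    have h3 : Continuous (fun p : ℝ × ℝ => NN Φ (p.1 * ee p.2)) :=
      (continuous_NN hΦ).comp continuous_path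
    have hA : Continuous (fun p : ℝ × ℝ => 2 * (ee p.2 * bb Φ (p.1 * ee p.2)).re) :=
      continuous_const.mul (Complex.continuous_re.comp hw)
    exact hA.div h3 hN
  have hfs := continuous_fs hΦ h0
  unfold nevMass
  have h1 : (∫ s in (0:ℝ)..r, (∫ t in Metric.ball (0:ℂ) s, 1 * fsDensity Φ t) / s) =
      ∫ s in (0:ℝ)..r, (1 / (4 * π)) * ∫ θ in (-π)..π, U s θ := by
    refine intervalIntegral.integral_congr_ae (Eventually.of_forall fun s hs => ?_)
    rw [uIoc_of_le hr] at hs
    have hs0 : 0 < s := hs.1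
    have h2 := integral_hh hΦ h0 s
    simp only [one_mul]
    rw [disc_integral hfs hs0.le]
    have h3 : (∫ θ in (-π)..π, hh Φ s θ) = s * ∫ θ in (-π)..π, U s θ := by
      rw [← intervalIntegral.integral_const_mul]
      congr 1
      funext θ
      simp only [hh, U, Complex.re_ofReal_mul]
      ring
    rw [h3] at h2
    have hπ := Real.pi_pos
    field_simp
    field_simp at h2
    linarith
  rw [h1, intervalIntegral.integral_const_mul]
  congr 1
  rw [swap_cont hUc 0 r (-π) π]
  congr 1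
  funext θ
  have hi : IntervalIntegrable (fun ρ => U ρ θ) volume 0 r := by
    have : Continuous (fun ρ => U ρ θ) :=
      Continuous.comp (g := Function.uncurry U) (f := fun ρ => (ρ, θ)) hUc (by fun_prop)
    exact this.intervalIntegrable 0 r
  have hd : ∀ x ∈ uIcc 0 r, HasDerivAt (fun ρ : ℝ => Real.log (NN Φ (ρ * ee θ))) (U x θ) x :=
    fun x _ => hasDerivAt_log hΦ h0 x θ
  have h3 := intervalIntegral.integral_eq_sub_of_hasDerivAt hd hi
  rw [h3]
  simp

/-- upper bound for the Nevanlinna mass -/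
lemma nevMass_fs_le (hΦ : Differentiable ℂ Φ) (h0 : ∀ t, Φ t ≠ 0) (h1 : 1 ≤ ‖Φ 0‖) {r B : ℝ}
    (hr : 0 ≤ r) (hB : ∀ t, ‖t‖ = r → Real.log ‖Φ t‖ ≤ B) :
    nevMass (fsDensity Φ) (fun _ => 1) r ≤ B := by
  rw [nevMass_fs hΦ h0 hr]
  have hπ := Real.pi_pos
  have h2 : ∫ θ in (-π)..π, (Real.log (NN Φ (r * ee θ)) - Real.log (NN Φ 0)) ≤
      ∫ θ in (-π)..π, 2 * B := by
    have hc : Continuous (fun θ : ℝ => Real.log (NN Φ (r * ee θ)) - Real.log (NN Φ 0)) := by
      have h3 : Continuous (fun θ : ℝ => NN Φ (r * ee θ)) :=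
        (continuous_NN hΦ).comp (continuous_const.mul continuous_ee)
      exact (h3.log fun θ => NN_ne h0 _).sub continuous_const
    refine intervalIntegral.integral_mono_on (by linarith) (hc.intervalIntegrable _ _)
      (continuous_const.intervalIntegrable _ _) fun θ _ => ?_
    have h4 : ‖(r : ℂ) * ee θ‖ = r := by
      rw [norm_mul, ee, Complex.norm_exp_ofReal_mul_I, mul_one, Complex.norm_real,
        Real.norm_eq_abs, abs_of_nonneg hr]
    have h5 := hB _ h4
    have h6 : Real.log (NN Φ (r * ee θ)) = 2 * Real.log ‖Φ (r * ee θ)‖ := by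
      unfold NN; rw [Real.log_pow]; norm_num
    have h7 : 0 ≤ Real.log (NN Φ 0) := by
      unfold NN
      exact Real.log_nonneg (by nlinarith [norm_nonneg (Φ 0)])
    rw [h6]
    linarith
  rw [intervalIntegral.integral_const, smul_eq_mul] at h2
  calc _ ≤ (1 / (4 * π)) * ((π - -π) * (2 * B)) := by gcongr
    _ = B := by field_simp; ring

end

end Pool.Agent.H46.Nev
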