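import Pool.Agent.H46.Nev.Topo
import Pool.Agent.H46.Nev.Jensen3

set_option autoImplicit false

open MeasureTheory Filter Topology Set
open scoped Real LinearAlgebra.Projectivization ComplexConjugate

namespace Pool.Agent.H46.Nev

section

variable {ι κ : Type} [Fintype ι] [Fintype κ]

@[simp] lemma wedge_apply (v w : E ι) (p : ι × ι) :
    wedge v w p = v p.1 * w p.2 - v p.2 * w p.1 := rfl

@[simp] lemma tens_apply (v : E ι) (w : E κ) (p : ι × κ) : tens v w p = v p.1 * w p.2 := rfl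

lemma norm_tens (v : E ι) (w : E κ) : ‖tens v w‖ = ‖v‖ * ‖w‖ := by
  have h : ‖tens v w‖ ^ 2 = (‖v‖ * ‖w‖) ^ 2 := by
    rw [mul_pow, EuclideanSpace.norm_sq_eq, EuclideanSpace.norm_sq_eq, EuclideanSpace.norm_sq_eq,
      Finset.sum_mul_sum, Fintype.sum_prod_type]
    simp only [tens_apply, norm_mul, mul_pow]
  exact (pow_left_inj₀ (norm_nonneg _) (by positivity) two_ne_zero).1 h

lemma norm_wedge_sq (v w : E ι) :
    ‖wedge v w‖ ^ 2 = 2 * (‖v‖ ^ 2 * ‖w‖ ^ 2 - ‖inner ℂ v w‖ ^ 2) := by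
  have h1 : ∀ i j, ‖v i * w j - v j * w i‖ ^ 2 = ‖v i‖ ^ 2 * ‖w j‖ ^ 2 + ‖v j‖ ^ 2 * ‖w i‖ ^ 2
      - 2 * ((conj (v i) * w i) * conj (conj (v j) * w j)).re := by
    intro i j
    rw [← Complex.normSq_eq_norm_sq, ← Complex.normSq_eq_norm_sq, ← Complex.normSq_eq_norm_sq,
      ← Complex.normSq_eq_norm_sq, ← Complex.normSq_eq_norm_sq]
    simp only [Complex.normSq_apply, Complex.mul_re, Complex.mul_im, Complex.sub_re,
      Complex.sub_im, map_mul, Complex.conj_re, Complex.conj_im]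
    ring
  have h2 : ‖inner ℂ v w‖ ^ 2 = ∑ i, ∑ j, ((conj (v i) * w i) * conj (conj (v j) * w j)).re := by
    have h3 : inner ℂ v w = ∑ i, conj (v i) * w i := by
      rw [PiLp.inner_apply]
      refine Finset.sum_congr rfl fun i _ => ?_
      simp [mul_comm]
    rw [h3, ← Complex.normSq_eq_norm_sq]
    have h4 : (Complex.normSq (∑ i, conj (v i) * w i) : ℂ) =
        ∑ i, ∑ j, ((conj (v i) * w i) * conj (conj (v j) * w j)) := by
      rw [← Complex.mul_conj, map_sum, Finset.sum_mul_sum]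
    have h5 := congrArg Complex.re h4
    rw [Complex.ofReal_re] at h5
    rw [h5, Complex.re_sum]
    refine Finset.sum_congr rfl fun i _ => ?_
    rw [Complex.re_sum]
  rw [EuclideanSpace.norm_sq_eq, Fintype.sum_prod_type]
  simp only [wedge_apply, h1]
  simp only [Finset.sum_sub_distrib, Finset.sum_add_distrib, ← Finset.mul_sum]
  rw [← h2]
  have h6 : ∑ x : ι, ∑ y : ι, ‖v y‖ ^ 2 * ‖w x‖ ^ 2 = ‖v‖ ^ 2 * ‖w‖ ^ 2 := by
    rw [Finset.sum_comm, EuclideanSpace.norm_sq_eq, EuclideanSpace.norm_sq_eq, Finset.sum_mul_sum]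
  rw [h6, ← Finset.sum_mul, ← EuclideanSpace.norm_sq_eq, ← EuclideanSpace.norm_sq_eq]
  ring

lemma norm_wedge_le (v w : E ι) : ‖wedge v w‖ ≤ 2 * (‖v‖ * ‖w‖) := by
  have h := norm_wedge_sq v w
  refine le_of_sq_le_sq ?_ (by positivity)
  rw [h]
  nlinarith [sq_nonneg (‖v‖ * ‖w‖), sq_nonneg ‖inner ℂ v w‖]

lemma fsDensity_eq (Φ : ℂ → E ι) (t : ℂ) :
    fsDensity Φ t = ‖wedge (Φ t) (deriv Φ t)‖ ^ 2 / (2 * π * ‖Φ t‖ ^ 4) := by
  rw [norm_wedge_sq, fsDensity, mul_assoc, mul_div_mul_left _ _ two_ne_zero]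

lemma hasDerivAt_coord {G : ℂ → E ι} {G' : E ι} {t : ℂ} (h : HasDerivAt G G' t) (i : ι) :
    HasDerivAt (fun t => G t i) (G' i) t :=
  (EuclideanSpace.proj i : E ι →L[ℂ] ℂ).hasFDerivAt.comp_hasDerivAt t h

lemma hasDerivAt_toLp {g : ℂ → ι → ℂ} {g' : ι → ℂ} {t : ℂ}
    (h : ∀ i, HasDerivAt (fun t => g t i) (g' i) t) :
    HasDerivAt (fun t => (WithLp.toLp 2 (g t) : E ι)) (WithLp.toLp 2 g') t := by
  have h1 : HasDerivAt g g' t := hasDerivAt_pi.2 h
  exact (PiLp.continuousLinearEquiv 2 ℂ (fun _ : ι => ℂ)).symm.toContinuousLinearMap.hasFDerivAt.comp_hasDerivAt t h1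

lemma hasDerivAt_wedge {G K : ℂ → E ι} {G' K' : E ι} {t : ℂ} (hG : HasDerivAt G G' t)
    (hK : HasDerivAt K K' t) :
    HasDerivAt (fun t => wedge (G t) (K t)) (wedge G' (K t) + wedge (G t) K') t := by
  have h : HasDerivAt (fun t => (WithLp.toLp 2 (fun p : ι × ι =>
      G t p.1 * K t p.2 - G t p.2 * K t p.1) : E (ι × ι)))
      (WithLp.toLp 2 (fun p : ι × ι => (G' p.1 * K t p.2 + G t p.1 * K' p.2) -
        (G' p.2 * K t p.1 + G t p.2 * K' p.1))) t :=
    hasDerivAt_toLp fun p => ((hasDerivAt_coord hG _).mul (hasDerivAt_coord hK _)).sub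
      ((hasDerivAt_coord hG _).mul (hasDerivAt_coord hK _))
  refine HasDerivAt.congr_deriv h ?_
  ext p
  simp only [PiLp.add_apply, wedge_apply]
  ring

lemma hasDerivAt_tens {G : ℂ → E ι} {K : ℂ → E κ} {G' : E ι} {K' : E κ} {t : ℂ}
    (hG : HasDerivAt G G' t) (hK : HasDerivAt K K' t) :
    HasDerivAt (fun t => tens (G t) (K t)) (tens G' (K t) + tens (G t) K') t := by
  have h : HasDerivAt (fun t => (WithLp.toLp 2 (fun p : ι × κ =>
      G t p.1 * K t p.2) : E (ι × κ)))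
      (WithLp.toLp 2 (fun p : ι × κ => (G' p.1 * K t p.2 + G t p.1 * K' p.2))) t :=
    hasDerivAt_toLp fun p => ((hasDerivAt_coord hG _).mul (hasDerivAt_coord hK _))
  refine HasDerivAt.congr_deriv h ?_
  ext p
  simp only [PiLp.add_apply, tens_apply]

lemma continuous_coord (i : ι) : Continuous fun v : E ι => v i := by fun_prop

lemma tendsto_wedge {α : Type} {l : Filter α} {u v : α → E ι} {x y : E ι}
    (hu : Tendsto u l (𝓝 x)) (hv : Tendsto v l (𝓝 y)) :
    Tendsto (fun a => wedge (u a) (v a)) l (𝓝 (wedge x y)) := by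
  have h : Continuous fun p : E ι × E ι => wedge p.1 p.2 := by
    refine (PiLp.continuous_toLp 2 _).comp (continuous_pi fun p => ?_)
    have h1 := fun i => (continuous_coord (ι := ι) i).comp (continuous_fst (X := E ι) (Y := E ι))
    have h2 := fun i => (continuous_coord (ι := ι) i).comp (continuous_snd (X := E ι) (Y := E ι))
    exact ((h1 _).mul (h2 _)).sub ((h1 _).mul (h2 _))
  exact (h.tendsto (x, y)).comp (hu.prodMk_nhds hv)

lemma tendsto_tens {α : Type} {l : Filter α} {u : α → E ι} {v : α → E κ} {x : E ι} {y : E κ}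
    (hu : Tendsto u l (𝓝 x)) (hv : Tendsto v l (𝓝 y)) :
    Tendsto (fun a => tens (u a) (v a)) l (𝓝 (tens x y)) := by
  have h : Continuous fun p : E ι × E κ => tens p.1 p.2 := by
    refine (PiLp.continuous_toLp 2 _).comp (continuous_pi fun p => ?_)
    have h1 := fun i => (continuous_coord (ι := ι) i).comp (continuous_fst (X := E ι) (Y := E κ))
    have h2 := fun i => (continuous_coord (ι := κ) i).comp (continuous_snd (X := E ι) (Y := E κ))
    exact (h1 _).mul (h2 _)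
  exact (h.tendsto (x, y)).comp (hu.prodMk_nhds hv)

lemma wedge_smul_smul (a b : ℂ) (v w : E ι) : wedge (a • v) (b • w) = (a * b) • wedge v w := by
  ext p
  simp only [wedge_apply, PiLp.smul_apply, smul_eq_mul]
  ring

lemma tens_smul_left (a : ℂ) (v : E ι) (w : E κ) : tens (a • v) w = a • tens v w := by
  ext p
  simp only [tens_apply, PiLp.smul_apply, smul_eq_mul]
  ring

lemma wedge_self (v : E ι) : wedge v v = 0 := by
  ext p
  simp [mul_comm]

lemma wedge_zero (v : E ι) : wedge v 0 = 0 := by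
  ext p
  simp

lemma tens_zero_left (w : E κ) : tens (0 : E ι) w = 0 := by
  ext p
  simp

end

/-- `F'` -/
noncomputable def G0 (t : ℂ) : E I0 := WithLp.toLp 2 ![0, 1, Complex.exp t]
/-- `F''` -/
noncomputable def K0 (t : ℂ) : E I0 := WithLp.toLp 2 ![0, 0, Complex.exp t]
/-- derivative of `lift1 F0` -/
noncomputable def G1 (t : ℂ) : E I1 := wedge (F0 t) (K0 t)
/-- derivative of `segre F0` -/
noncomputable def GH (t : ℂ) : E IH := tens (G0 t) (lift1 F0 t) + tens (F0 t) (G1 t)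

lemma hasDerivAt_F0 (t : ℂ) : HasDerivAt F0 (G0 t) t := by
  refine hasDerivAt_toLp fun i => ?_
  fin_cases i
  · exact hasDerivAt_const t 1
  · exact hasDerivAt_id t
  · exact Complex.hasDerivAt_exp t

lemma hasDerivAt_G0 (t : ℂ) : HasDerivAt G0 (K0 t) t := by
  refine hasDerivAt_toLp fun i => ?_
  fin_cases i
  · exact hasDerivAt_const t 0
  · exact hasDerivAt_const t 1
  · exact Complex.hasDerivAt_exp t

lemma hasDerivAt_K0 (t : ℂ) : HasDerivAt K0 (K0 t) t := by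
  refine hasDerivAt_toLp fun i => ?_
  fin_cases i
  · exact hasDerivAt_const t 0
  · exact hasDerivAt_const t 0
  · exact Complex.hasDerivAt_exp t

lemma deriv_F0 : deriv F0 = G0 := funext fun t => (hasDerivAt_F0 t).deriv

lemma lift1_eq (t : ℂ) : lift1 F0 t = wedge (F0 t) (G0 t) := by
  rw [lift1, deriv_F0]

lemma hasDerivAt_lift1 (t : ℂ) : HasDerivAt (lift1 F0) (G1 t) t := by
  have h := hasDerivAt_wedge (hasDerivAt_F0 t) (hasDerivAt_G0 t)
  have e : lift1 F0 = fun t => wedge (F0 t) (G0 t) := funext lift1_eq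
  rw [e]
  refine h.congr_deriv ?_
  rw [wedge_self, zero_add]
  rfl

lemma deriv_lift1 : deriv (lift1 F0) = G1 := funext fun t => (hasDerivAt_lift1 t).deriv

lemma hasDerivAt_segre (t : ℂ) : HasDerivAt (segre F0) (GH t) t :=
  hasDerivAt_tens (hasDerivAt_F0 t) (hasDerivAt_lift1 t)

lemma deriv_segre : deriv (segre F0) = GH := funext fun t => (hasDerivAt_segre t).deriv

lemma lift2_eq (t : ℂ) : lift2 F0 t = wedge (segre F0 t) (GH t) := by
  rw [lift2, deriv_segre]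

lemma differentiable_F0 : Differentiable ℂ F0 := fun t => (hasDerivAt_F0 t).differentiableAt
lemma differentiable_G0 : Differentiable ℂ G0 := fun t => (hasDerivAt_G0 t).differentiableAt
lemma differentiable_lift1 : Differentiable ℂ (lift1 F0) :=
  fun t => (hasDerivAt_lift1 t).differentiableAt
lemma differentiable_G1 : Differentiable ℂ G1 :=
  fun t => (hasDerivAt_wedge (hasDerivAt_F0 t) (hasDerivAt_K0 t)).differentiableAt
lemma differentiable_segre : Differentiable ℂ (segre F0) :=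
  fun t => (hasDerivAt_segre t).differentiableAt
lemma differentiable_GH : Differentiable ℂ GH := fun t =>
  ((hasDerivAt_tens (hasDerivAt_G0 t) (hasDerivAt_lift1 t)).add
    (hasDerivAt_tens (hasDerivAt_F0 t) (differentiable_G1 t).hasDerivAt)).differentiableAt
lemma differentiable_lift2 : Differentiable ℂ (lift2 F0) := by
  have e : lift2 F0 = fun t => wedge (segre F0 t) (GH t) := funext lift2_eq
  rw [e]
  exact fun t => (hasDerivAt_wedge (hasDerivAt_segre t) (differentiable_GH t).hasDerivAt).differentiableAt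

/-! entries equal to one -/

lemma F0_0 (t : ℂ) : F0 t 0 = 1 := rfl
lemma F0_1 (t : ℂ) : F0 t 1 = t := rfl
lemma F0_2 (t : ℂ) : F0 t 2 = Complex.exp t := rfl
lemma G0_0 (t : ℂ) : G0 t 0 = 0 := rfl
lemma G0_1 (t : ℂ) : G0 t 1 = 1 := rfl
lemma G0_2 (t : ℂ) : G0 t 2 = Complex.exp t := rfl
lemma K0_0 (t : ℂ) : K0 t 0 = 0 := rfl
lemma K0_1 (t : ℂ) : K0 t 1 = 0 := rfl
lemma K0_2 (t : ℂ) : K0 t 2 = Complex.exp t := rfl

lemma norm_ge_of_coord {ι : Type} [Fintype ι] (v : E ι) (i : ι) : ‖v i‖ ≤ ‖v‖ :=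
  PiLp.norm_apply_le v i

lemma one_le_F0 (t : ℂ) : 1 ≤ ‖F0 t‖ := by
  have h := norm_ge_of_coord (F0 t) 0
  rw [F0_0] at h
  simpa using h

lemma one_le_lift1 (t : ℂ) : 1 ≤ ‖lift1 F0 t‖ := by
  have h := norm_ge_of_coord (lift1 F0 t) (0, 1)
  rw [lift1_eq] at h ⊢
  rw [wedge_apply, F0_0, F0_1, G0_0, G0_1] at h
  simpa using h

lemma lift2_entry (t : ℂ) : lift2 F0 t ((0, (0, 1)), (1, (0, 1))) = 1 := by
  rw [lift2_eq, wedge_apply]
  simp only [segre, GH, PiLp.add_apply, tens_apply, lift1_eq, wedge_apply, F0_0, F0_1, G0_0, G0_1,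
    G1, K0_0, K0_1]
  ring

lemma one_le_lift2 (t : ℂ) : 1 ≤ ‖lift2 F0 t‖ := by
  have h := norm_ge_of_coord (lift2 F0 t) ((0, (0, 1)), (1, (0, 1)))
  rw [lift2_entry] at h
  simpa using h

lemma F0_ne (t : ℂ) : F0 t ≠ 0 := norm_pos_iff.1 (by linarith [one_le_F0 t])
lemma lift1_ne (t : ℂ) : lift1 F0 t ≠ 0 := norm_pos_iff.1 (by linarith [one_le_lift1 t])
lemma lift2_ne (t : ℂ) : lift2 F0 t ≠ 0 := norm_pos_iff.1 (by linarith [one_le_lift2 t])

/-! upper bounds -/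

lemma norm_le_of_coords (v : E I0) {B : ℝ} (hB : ∀ i, ‖v i‖ ≤ B) : ‖v‖ ≤ 3 * B := by
  have hB0 : 0 ≤ B := (norm_nonneg _).trans (hB 0)
  refine le_of_sq_le_sq ?_ (by positivity)
  rw [EuclideanSpace.norm_sq_eq, Fin.sum_univ_three]
  have h := fun i => pow_le_pow_left₀ (norm_nonneg (v i)) (hB i) 2
  nlinarith [h 0, h 1, h 2]

lemma norm_F0_le (t : ℂ) : ‖F0 t‖ ≤ 3 * Real.exp ‖t‖ := by
  have h1 : 1 ≤ Real.exp ‖t‖ := Real.one_le_exp (norm_nonneg _)
  have h2 : ‖t‖ ≤ Real.exp ‖t‖ := by linarith [Real.add_one_le_exp ‖t‖]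
  refine norm_le_of_coords _ fun i => ?_
  fin_cases i
  · simpa [F0_0] using h1
  · simpa [F0_1] using h2
  · simpa [F0_2] using Complex.norm_exp_le_exp_norm t

lemma norm_G0_le (t : ℂ) : ‖G0 t‖ ≤ 3 * Real.exp ‖t‖ := by
  have h1 : 1 ≤ Real.exp ‖t‖ := Real.one_le_exp (norm_nonneg _)
  refine norm_le_of_coords _ fun i => ?_
  fin_cases i
  · simp [G0_0, Real.exp_nonneg]
  · simpa [G0_1] using h1
  · simpa [G0_2] using Complex.norm_exp_le_exp_norm t

lemma norm_K0_le (t : ℂ) : ‖K0 t‖ ≤ 3 * Real.exp ‖t‖ := by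
  refine norm_le_of_coords _ fun i => ?_
  fin_cases i
  · simp [K0_0, Real.exp_nonneg]
  · simp [K0_1, Real.exp_nonneg]
  · simpa [K0_2] using Complex.norm_exp_le_exp_norm t

lemma norm_lift1_le (t : ℂ) : ‖lift1 F0 t‖ ≤ 18 * Real.exp ‖t‖ ^ 2 := by
  rw [lift1_eq]
  refine (norm_wedge_le _ _).trans ?_
  calc 2 * (‖F0 t‖ * ‖G0 t‖) ≤ 2 * ((3 * Real.exp ‖t‖) * (3 * Real.exp ‖t‖)) := by
        gcongr
        · exact norm_F0_le t
        · exact norm_G0_le t
    _ = _ := by ring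

lemma norm_G1_le (t : ℂ) : ‖G1 t‖ ≤ 18 * Real.exp ‖t‖ ^ 2 := by
  refine (norm_wedge_le _ _).trans ?_
  calc 2 * (‖F0 t‖ * ‖K0 t‖) ≤ 2 * ((3 * Real.exp ‖t‖) * (3 * Real.exp ‖t‖)) := by
        gcongr
        · exact norm_F0_le t
        · exact norm_K0_le t
    _ = _ := by ring

lemma norm_segre_le (t : ℂ) : ‖segre F0 t‖ ≤ 54 * Real.exp ‖t‖ ^ 3 := by
  rw [segre, norm_tens]
  calc ‖F0 t‖ * ‖lift1 F0 t‖ ≤ (3 * Real.exp ‖t‖) * (18 * Real.exp ‖t‖ ^ 2) := by
        gcongr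
        · exact norm_F0_le t
        · exact norm_lift1_le t
    _ = _ := by ring

lemma norm_GH_le (t : ℂ) : ‖GH t‖ ≤ 108 * Real.exp ‖t‖ ^ 3 := by
  refine (norm_add_le _ _).trans ?_
  rw [norm_tens, norm_tens]
  calc ‖G0 t‖ * ‖lift1 F0 t‖ + ‖F0 t‖ * ‖G1 t‖
      ≤ (3 * Real.exp ‖t‖) * (18 * Real.exp ‖t‖ ^ 2) + (3 * Real.exp ‖t‖) * (18 * Real.exp ‖t‖ ^ 2) := by
        gcongr
        · exact norm_G0_le t
        · exact norm_lift1_le t
        · exact norm_F0_le t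
        · exact norm_G1_le t
    _ = _ := by ring

lemma norm_lift2_le (t : ℂ) : ‖lift2 F0 t‖ ≤ 11664 * Real.exp ‖t‖ ^ 6 := by
  rw [lift2_eq]
  refine (norm_wedge_le _ _).trans ?_
  calc 2 * (‖segre F0 t‖ * ‖GH t‖) ≤ 2 * ((54 * Real.exp ‖t‖ ^ 3) * (108 * Real.exp ‖t‖ ^ 3)) := by
        gcongr
        · exact norm_segre_le t
        · exact norm_GH_le t
    _ = _ := by ring

lemma log_bound {x R : ℝ} (h1 : 1 ≤ x) (h2 : x ≤ 11664 * Real.exp R ^ 6) :
    Real.log x ≤ Real.log 11664 + 6 * R := by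
  have h3 := Real.log_le_log (by linarith) h2
  rw [Real.log_mul (by norm_num) (by positivity), Real.log_pow, Real.log_exp] at h3
  push_cast at h3
  exact h3

end Pool.Agent.H46.Nev
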