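import Mathlib

set_option autoImplicit false

/-!
# Nevanlinna currents of the lifts of an entire curve: definitions

We work with entire curves `f = [F] : ℂ → P²(ℂ)`, `F : ℂ → ℂ³` holomorphic without zeros.
The Demailly-Semple tower of `P²` is realised inside products of projective spaces:
a tangent direction at a point `[p]` of a projective manifold `M ⊂ P(W)` is recorded by the
projective line it spans, i.e. by the point `[p ∧ w]` of `P(Λ²W) ⊂ P(W ⊗ W)`, where `w ∈ W`
represents the direction. `P(T_{P²})` is embedded in one projective space by the Segre map.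
-/

open MeasureTheory Filter Topology
open scoped Real LinearAlgebra.Projectivization

namespace Pool.Agent.H46.Nev

/-- The hermitian space `ℂ^ι`. -/
abbrev E (ι : Type) [Fintype ι] : Type := EuclideanSpace ℂ ι

/-- The projective space of `ℂ^ι`. -/
def P (ι : Type) [Fintype ι] : Type := ℙ ℂ (E ι)

/-- The canonical map from nonzero vectors to projective space. -/
noncomputable def mkP {ι : Type} [Fintype ι] (v : {v : E ι // v ≠ 0}) : P ι := Projectivization.mk ℂ v.1 v.2

/-- Quotient topology on the projective space. -/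
noncomputable instance instTopP (ι : Type) [Fintype ι] : TopologicalSpace (P ι) :=
  TopologicalSpace.coinduced mkP inferInstance

/-- Borel sets of the projective space. -/
noncomputable instance instMeasP (ι : Type) [Fintype ι] : MeasurableSpace (P ι) := borel (P ι)

/-- The point `[v]` of projective space (an arbitrary point if `v = 0`). -/
noncomputable def toP {ι : Type} [Fintype ι] [Nonempty ι] (v : E ι) : P ι :=
  open scoped Classical in
  if h : v ≠ 0 then mkP ⟨v, h⟩ else Classical.arbitrary (ℙ ℂ (E ι))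

/-- `v ∧ w`, as an antisymmetric tensor in `ℂ^ι ⊗ ℂ^ι = ℂ^(ι × ι)`. -/
noncomputable def wedge {ι : Type} [Fintype ι] (v w : E ι) : E (ι × ι) :=
  WithLp.toLp 2 fun p => v p.1 * w p.2 - v p.2 * w p.1

/-- `v ⊗ w`. -/
noncomputable def tens {ι κ : Type} [Fintype ι] [Fintype κ] (v : E ι) (w : E κ) : E (ι × κ) :=
  WithLp.toLp 2 fun p => v p.1 * w p.2

/-- Index set of `ℂ³`. -/
abbrev I0 : Type := Fin 3
/-- Index set of `ℂ³ ⊗ ℂ³ ⊃ Λ²ℂ³`. -/
abbrev I1 : Type := I0 × I0
/-- Index set of the Segre space `ℂ³ ⊗ (ℂ³ ⊗ ℂ³)`. -/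
abbrev IH : Type := I0 × I1
/-- Index set of the tensor square of the Segre space. -/
abbrev I2 : Type := IH × IH

/-- The ambient product of projective spaces of the second Demailly-Semple space `X_2` of `P²`. -/
def Y : Type := P I0 × P I1 × P I2

/-- product topology -/
noncomputable instance instTopY : TopologicalSpace Y := instTopologicalSpaceProd
/-- product σ-algebra -/
noncomputable instance instMeasY : MeasurableSpace Y := Prod.instMeasurableSpace

/-- The point `([u], [v], [w])` of the ambient product. -/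
noncomputable def mkY (u : E I0) (v : E I1) (w : E I2) : Y := (toP u, toP v, toP w)

/-- Lift of the derivative of `[F]`: the tangent line of `[F]` at `[F t]`. -/
noncomputable def lift1 (F : ℂ → E I0) (t : ℂ) : E I1 := wedge (F t) (deriv F t)

/-- The first lift `f_[1]`, in the Segre embedding. -/
noncomputable def segre (F : ℂ → E I0) (t : ℂ) : E IH := tens (F t) (lift1 F t)

/-- The tangent line of the first lift `f_[1]`. -/
noncomputable def lift2 (F : ℂ → E I0) (t : ℂ) : E I2 := wedge (segre F t) (deriv (segre F) t)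

/-- The second lift `f_[2]` of the entire curve `f = [F]`. -/
noncomputable def f2 (F : ℂ → E I0) (t : ℂ) : Y := mkY (F t) (lift1 F t) (lift2 F t)

/-- Tangent vector at `s = 0` of the curve `s ↦ (x + s a y) ⊗ ((x + s a y) ∧ (y + s b z))`. -/
noncomputable def dirVec (x y z : E I0) (a b : ℂ) : E IH :=
  a • tens y (wedge x y) + b • tens x (wedge x z)

/-- The point of `X_2` over `([x], [x ∧ y]) ∈ X_1` which is the direction at `s = 0` of the curve
`s ↦ ([x + s a y], [(x + s a y) ∧ (y + s b z)])`. -/
noncomputable def point2 (x y z : E I0) (a b : ℂ) : Y :=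
  mkY x (wedge x y) (wedge (tens x (wedge x y)) (dirVec x y z a b))

/-- The second Demailly-Semple space `X_2 = P(V_1)` of `P²`. A point of `X_1` is a flag
`([x],[x ∧ y])`, and the lines of `V_1` at this point are spanned by the directions of the curves
`s ↦ ([x + s a y], [(x + s a y) ∧ (y + s b z)])`. -/
def X2 : Set Y :=
  {p | ∃ (x y z : E I0) (a b : ℂ), LinearIndependent ℂ ![x, y, z] ∧ (a ≠ 0 ∨ b ≠ 0) ∧
    p = point2 x y z a b}

/-- The singular locus `X_2^[sing] = D_2 = P(T_{X_1/X_0})` (vertical directions): at the point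
`([x],[x ∧ y])` of `X_1`, the direction of the curve `s ↦ ([x], [x ∧ (y + s z)])`. -/
def D2 : Set Y :=
  {p | ∃ x y z : E I0, LinearIndependent ℂ ![x, y, z] ∧ p = point2 x y z 0 1}

/-- Fubini-Study area density of the curve `[Φ]` in projective space:
`Φ^* ω_FS = fsDensity Φ dA` with `ω_FS` normalised by `∫_{line} ω_FS = 1`. -/
noncomputable def fsDensity {V : Type} [NormedAddCommGroup V] [InnerProductSpace ℂ V] (Φ : ℂ → V)
    (t : ℂ) : ℝ :=
  (‖Φ t‖ ^ 2 * ‖deriv Φ t‖ ^ 2 - ‖inner ℂ (Φ t) (deriv Φ t)‖ ^ 2) / (π * ‖Φ t‖ ^ 4)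

/-- The density of `f_[2]^* ω` for the Kähler metric `ω = ω_FS + ω_FS + ω_FS` on the ambient
product. -/
noncomputable def areaDensity (F : ℂ → E I0) (t : ℂ) : ℝ :=
  fsDensity F t + fsDensity (lift1 F) t + fsDensity (lift2 F) t

/-- `∫_0^r (∫_{|t| < s} φ a dA) ds / s` -/
noncomputable def nevMass (a φ : ℂ → ℝ) (r : ℝ) : ℝ :=
  ∫ s in (0:ℝ)..r, (∫ t in Metric.ball (0:ℂ) s, φ t * a t) / s

/-- `∫_0^r (∫_{-π}^π √a(s e^{iθ}) s dθ) ds / s`: up to a constant factor, the logarithmic mean of
the length of the image of the boundary circle `|t| = s`. -/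
noncomputable def bdryMass (a : ℂ → ℝ) (r : ℝ) : ℝ :=
  ∫ s in (0:ℝ)..r, (∫ θ in (-π)..π, √(a (s * Complex.exp (θ * Complex.I))) * s) / s

/-- `μ` is the trace measure `S ∧ ω` of a Nevanlinna current `S = lim T_{r_j}` of the holomorphic
curve `g : ℂ → M`, where `a` is the density of `g^* ω`: for every continuous `φ`,
`(T_{r_j} ∧ ω)(φ) → ∫ φ dμ`, and the boundary terms are negligible (length-area condition). -/
structure IsNevanlinnaTrace {M : Type} [TopologicalSpace M] [MeasurableSpace M] (g : ℂ → M)
    (a : ℂ → ℝ) (r : ℕ → ℝ) (μ : Measure M) : Prop where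
  tendsto_r : Tendsto r atTop atTop
  tendsto_mass : ∀ φ : C(M, ℝ),
    Tendsto (fun j => nevMass a (fun t => φ (g t)) (r j) / nevMass a (fun _ => 1) (r j)) atTop
      (𝓝 (∫ y, φ y ∂μ))
  tendsto_bdry : Tendsto (fun j => bdryMass a (r j) / nevMass a (fun _ => 1) (r j)) atTop (𝓝 0)

/-- `G` is a holomorphic lift of a holomorphic curve `[G]` in projective space. -/
def IsHolLift {ι : Type} [Fintype ι] (G : ℂ → E ι) : Prop := Differentiable ℂ G ∧ ∀ t, G t ≠ 0

/-- The homogeneous lift of the entire curve `f(t) = [1 : t : e^t]` in `P²`. -/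
noncomputable def F0 (t : ℂ) : E I0 := WithLp.toLp 2 ![1, t, Complex.exp t]

end Pool.Agent.H46.Nev
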