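import Pool.Agent.H46.Nev.Trace

set_option autoImplicit false

open MeasureTheory Filter Topology Set
open scoped Real LinearAlgebra.Projectivization ComplexConjugate CompactlySupported

namespace Pool.Agent.H46.Nev

/-- the normalised positive linear functional `φ ↦ T_r(φ ω)` -/
noncomputable def Lfun (r : ℝ) (hr : 5 ≤ r) : C_c(Y, ℝ) →ₚ[ℝ] ℝ where
  toFun φ := LL r (fun t => φ (f2 F0 t) * areaDensity F0 t) /
    nevMass (areaDensity F0) (fun _ => 1) r
  map_add' φ χ := by
    have hφ : Continuous fun t => φ (f2 F0 t) * areaDensity F0 t :=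
      (φ.continuous.comp continuous_f2).mul continuous_area
    have hχ : Continuous fun t => χ (f2 F0 t) * areaDensity F0 t :=
      (χ.continuous.comp continuous_f2).mul continuous_area
    rw [← add_div, ← LL_add hφ hχ (by linarith)]
    congr 2
    funext t
    rw [CompactlySupportedContinuousMap.add_apply, add_mul]
  map_smul' c φ := by
    rw [RingHom.id_apply, smul_eq_mul, ← mul_div_assoc, ← LL_const_mul]
    congr 2
    funext t
    rw [CompactlySupportedContinuousMap.smul_apply, smul_eq_mul, mul_assoc]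
  monotone' φ χ h := by
    have hφ : Continuous fun t => φ (f2 F0 t) * areaDensity F0 t :=
      (φ.continuous.comp continuous_f2).mul continuous_area
    have hχ : Continuous fun t => χ (f2 F0 t) * areaDensity F0 t :=
      (χ.continuous.comp continuous_f2).mul continuous_area
    have h1 := LL_mono hφ hχ (fun t => mul_le_mul_of_nonneg_right (h (f2 F0 t)) (area_nonneg t))
      (r := r) (by linarith)
    have h2 := T_pos hr
    exact div_le_div_of_nonneg_right h1 h2.le

lemma exists_measure (r : ℝ) (hr : 5 ≤ r) : ∃ μ : ProbabilityMeasure Y, ∀ φ : C(Y, ℝ),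
    ∫ y, φ y ∂(μ : Measure Y) = nevMass (areaDensity F0) (fun t => φ (f2 F0 t)) r /
      nevMass (areaDensity F0) (fun _ => 1) r := by
  have hT := T_pos hr
  have hint : ∀ φ : C(Y, ℝ), ∫ y, φ y ∂(RealRMK.rieszMeasure (Lfun r hr)) =
      nevMass (areaDensity F0) (fun t => φ (f2 F0 t)) r /
      nevMass (areaDensity F0) (fun _ => 1) r := by
    intro φ
    let φ' : C_c(Y, ℝ) :=
      { toFun := φ
        hasCompactSupport' := HasCompactSupport.of_compactSpace _ }
    have h1 := RealRMK.integral_rieszMeasure (Lfun r hr) φ'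
    have h2 : Lfun r hr φ' = nevMass (areaDensity F0) (fun t => φ (f2 F0 t)) r /
        nevMass (areaDensity F0) (fun _ => 1) r := by
      rw [nevMass_eq (continuous_phi φ) (by linarith)]
      rfl
    rw [← h2, ← h1]
    rfl
  have h1 := hint (ContinuousMap.const Y 1)
  simp only [ContinuousMap.const_apply] at h1
  rw [div_self hT.ne', integral_const, smul_eq_mul, mul_one] at h1
  have hprob : IsProbabilityMeasure (RealRMK.rieszMeasure (Lfun r hr)) := by
    constructor
    have h2 : (RealRMK.rieszMeasure (Lfun r hr) univ).toReal = 1 := h1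
    rw [← ENNReal.toReal_one] at h2
    exact (ENNReal.toReal_eq_toReal_iff' (measure_ne_top _ _) ENNReal.one_ne_top).1 h2
  exact ⟨⟨RealRMK.rieszMeasure (Lfun r hr), hprob⟩, hint⟩

theorem exists_trace (r : ℕ → ℝ) (hr : Tendsto r atTop atTop) :
    ∃ (k : ℕ → ℕ) (μ : Measure Y), StrictMono k ∧ IsProbabilityMeasure μ ∧
      IsNevanlinnaTrace (f2 F0) (areaDensity F0) (fun j => r (k j)) μ := by
  obtain ⟨N, hN⟩ := eventually_atTop.1 (hr.eventually_ge_atTop 5)
  choose ν hν using fun n : ℕ => exists_measure (r (n + N)) (hN _ (Nat.le_add_left N n))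
  obtain ⟨μ, k, hk, hlim⟩ := CompactSpace.tendsto_subseq ν
  refine ⟨fun j => k j + N, μ, fun a b hab => Nat.add_lt_add_right (hk hab) N, inferInstance,
    ?_, ?_, ?_⟩
  · exact hr.comp (tendsto_atTop_mono (fun j => Nat.le_add_right (k j) N) hk.tendsto_atTop)
  · intro φ
    have h1 := (ProbabilityMeasure.tendsto_iff_forall_integral_tendsto.1 hlim)
      (BoundedContinuousFunction.mkOfCompact φ)
    refine h1.congr fun j => ?_
    simp only [Function.comp_apply, BoundedContinuousFunction.mkOfCompact_apply]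
    exact hν (k j) φ
  · exact bdry_tendsto.comp
      (hr.comp (tendsto_atTop_mono (fun j => Nat.le_add_right (k j) N) hk.tendsto_atTop))

lemma prob_of_trace {r : ℕ → ℝ} {μ : Measure Y}
    (h : IsNevanlinnaTrace (f2 F0) (areaDensity F0) r μ) : IsProbabilityMeasure μ := by
  have h1 := h.tendsto_mass (ContinuousMap.const Y 1)
  simp only [ContinuousMap.const_apply] at h1
  have h2 : Tendsto (fun j => nevMass (areaDensity F0) (fun _ => 1) (r j) /
      nevMass (areaDensity F0) (fun _ => 1) (r j)) atTop (𝓝 1) := by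
    refine tendsto_const_nhds.congr' ?_
    filter_upwards [h.tendsto_r.eventually_ge_atTop 5] with j hj
    exact (div_self (T_pos hj).ne').symm
  have h3 := tendsto_nhds_unique h1 h2
  rw [integral_const, smul_eq_mul, mul_one] at h3
  have h4 : (μ univ).toReal = 1 := h3
  constructor
  have h5 : μ univ ≠ ⊤ := by
    intro h6
    rw [h6] at h4
    simp at h4
  rw [← ENNReal.toReal_one] at h4
  exact (ENNReal.toReal_eq_toReal_iff' h5 ENNReal.one_ne_top).1 h4

lemma mem_X2 (t : ℂ) : f2 F0 t ∈ X2 := by
  refine ⟨F0 t, G0 t, K0 t, 1, 1, ?_, Or.inl one_ne_zero, ?_⟩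
  · rw [Fintype.linearIndependent_iff]
    intro g hg
    rw [Fin.sum_univ_three] at hg
    have h0 := congrArg (fun v : E I0 => v 0) hg
    have h1 := congrArg (fun v : E I0 => v 1) hg
    have h2 := congrArg (fun v : E I0 => v 2) hg
    simp [F0_0, F0_1, F0_2, G0_0, G0_1, G0_2, K0_0, K0_1, K0_2] at h0 h1 h2
    rw [h0] at h1 h2
    simp only [zero_mul, zero_add] at h1
    rw [h1] at h2
    simp [Complex.exp_ne_zero] at h2
    intro i
    fin_cases i
    · exact h0
    · exact h1
    · exact h2
  · rw [f2, lift2_eq, GH, segre, lift1_eq, point2, dirVec, one_smul, one_smul]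
    rfl

lemma D2_subset : D2 ⊆ X2 := by
  rintro _ ⟨x, y, z, h, rfl⟩
  exact ⟨x, y, z, 0, 1, h, Or.inr one_ne_zero, rfl⟩

end Pool.Agent.H46.Nev
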