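import Pool.Agent.H46.Nev.Defs

set_option autoImplicit false

/-!
# A Jensen type identity for the area of a holomorphic curve in projective space
-/

open MeasureTheory Set Filter Topology
open scoped Real ComplexConjugate

namespace Pool.Agent.H46.Nev

variable {V : Type} [NormedAddCommGroup V] [InnerProductSpace ℂ V]

lemma fsDensity_nonneg (Φ : ℂ → V) (t : ℂ) : 0 ≤ fsDensity Φ t := by
  unfold fsDensity
  refine div_nonneg ?_ (by positivity)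
  have h := norm_inner_le_norm (𝕜 := ℂ) (Φ t) (deriv Φ t)
  have h2 : ‖inner ℂ (Φ t) (deriv Φ t)‖ ^ 2 ≤ (‖Φ t‖ * ‖deriv Φ t‖) ^ 2 := by gcongr
  nlinarith

/-- `exp(iθ)` -/
noncomputable def ee (θ : ℝ) : ℂ := Complex.exp (θ * Complex.I)

lemma ee_conj (θ : ℝ) : ee θ * conj (ee θ) = 1 := by
  rw [Complex.mul_conj, Complex.normSq_eq_norm_sq, ee, Complex.norm_exp_ofReal_mul_I]
  simp

lemma hasDerivAt_ee (θ : ℝ) : HasDerivAt ee (Complex.I * ee θ) θ := by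
  have h1 : HasDerivAt (fun θ : ℝ => (θ : ℂ) * Complex.I) (1 * Complex.I) θ :=
    (Complex.ofRealCLM.hasDerivAt (x := θ)).mul_const Complex.I
  have h2 := h1.cexp
  have e : Complex.I * ee θ = Complex.exp (↑θ * Complex.I) * (1 * Complex.I) := by
    rw [ee]; ring
  rw [e]
  exact h2

lemma continuous_ee : Continuous ee := by unfold ee; fun_prop

section

variable (Φ : ℂ → V)

/-- `⟨Φ, Φ'⟩` -/
noncomputable def bb (t : ℂ) : ℂ := inner ℂ (Φ t) (deriv Φ t)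
/-- `⟨Φ, Φ''⟩` -/
noncomputable def cc (t : ℂ) : ℂ := inner ℂ (Φ t) (deriv (deriv Φ) t)
/-- `‖Φ‖²` -/
noncomputable def NN (t : ℂ) : ℝ := ‖Φ t‖ ^ 2
/-- `‖Φ'‖²` -/
noncomputable def MM (t : ℂ) : ℝ := ‖deriv Φ t‖ ^ 2

/-- `h(ρ,θ) = ρ ∂_ρ log ‖Φ‖²` -/
noncomputable def hh (ρ θ : ℝ) : ℝ := 2 * (ρ * (ee θ * bb Φ (ρ * ee θ))).re / NN Φ (ρ * ee θ)
/-- `k(ρ,θ) = ρ⁻¹ ∂_θ log ‖Φ‖²` -/
noncomputable def kk (ρ θ : ℝ) : ℝ := -2 * (ee θ * bb Φ (ρ * ee θ)).im / NN Φ (ρ * ee θ)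

/-- derivative of `hh` in `ρ` -/
noncomputable def hρ (ρ θ : ℝ) : ℝ :=
  2 * (ee θ * bb Φ (ρ * ee θ) + ρ * (ee θ * ee θ * cc Φ (ρ * ee θ) + MM Φ (ρ * ee θ))).re / NN Φ (ρ * ee θ)
   - 2 * (ρ * (ee θ * bb Φ (ρ * ee θ))).re * (2 * (ee θ * bb Φ (ρ * ee θ)).re) / NN Φ (ρ * ee θ) ^ 2

/-- derivative of `kk` in `θ` -/
noncomputable def kθ (ρ θ : ℝ) : ℝ :=
  -2 * (Complex.I * (ee θ * bb Φ (ρ * ee θ)) + Complex.I * ρ * (ee θ * ee θ * cc Φ (ρ * ee θ) - MM Φ (ρ * ee θ))).im / NN Φ (ρ * ee θ)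
   + 2 * (ee θ * bb Φ (ρ * ee θ)).im * (-2 * ρ * (ee θ * bb Φ (ρ * ee θ)).im) / NN Φ (ρ * ee θ) ^ 2

variable {Φ}

lemma hρ_add_kθ (h0 : ∀ t, Φ t ≠ 0) (ρ θ : ℝ) : hρ Φ ρ θ + kθ Φ ρ θ =
    4 * π * ρ * fsDensity Φ (ρ * ee θ) := by
  have hN : NN Φ (ρ * ee θ) ≠ 0 := by
    unfold NN; exact pow_ne_zero _ (norm_ne_zero_iff.2 (h0 _))
  have hfs : fsDensity Φ (ρ * ee θ) = (NN Φ (ρ * ee θ) * MM Φ (ρ * ee θ) -
      ‖ee θ * bb Φ (ρ * ee θ)‖ ^ 2) / (π * NN Φ (ρ * ee θ) ^ 2) := by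
    have h1 : ‖ee θ‖ = 1 := by rw [ee, Complex.norm_exp_ofReal_mul_I]
    rw [norm_mul, h1, one_mul]
    unfold fsDensity NN MM bb
    ring
  rw [hfs]
  unfold hρ kθ
  set w := ee θ * bb Φ (ρ * ee θ) with hw
  set z := ee θ * ee θ * cc Φ (ρ * ee θ) with hz
  set N := NN Φ (ρ * ee θ)
  set M := MM Φ (ρ * ee θ)
  have hnorm : ‖w‖ ^ 2 = w.re ^ 2 + w.im ^ 2 := by
    rw [← Complex.normSq_eq_norm_sq, Complex.normSq_apply]; ring
  rw [hnorm]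
  simp only [Complex.add_re, Complex.mul_re, Complex.ofReal_re, Complex.ofReal_im, Complex.add_im,
    Complex.mul_im, Complex.I_re, Complex.I_im, Complex.sub_re, Complex.sub_im]
  have hπ : π ≠ 0 := Real.pi_ne_zero
  field_simp
  ring

variable [CompleteSpace V]

lemma differentiable_deriv (hΦ : Differentiable ℂ Φ) : Differentiable ℂ (deriv Φ) := by
  intro t
  exact ((hΦ.analyticAt t).deriv).differentiableAt

omit [CompleteSpace V] in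
lemma NN_cast (t : ℂ) : (NN Φ t : ℂ) = inner ℂ (Φ t) (Φ t) := by
  unfold NN
  rw [inner_self_eq_norm_sq_to_K]
  simp

omit [CompleteSpace V] in
lemma MM_cast (t : ℂ) : (MM Φ t : ℂ) = inner ℂ (deriv Φ t) (deriv Φ t) := by
  unfold MM
  rw [inner_self_eq_norm_sq_to_K]
  simp

omit [CompleteSpace V] in
/-- derivative of `⟨Φ,Φ⟩` along a real path -/
lemma hasDerivAt_NN (hΦ : Differentiable ℂ Φ) {γ : ℝ → ℂ} {v : ℂ} {s : ℝ} (hγ : HasDerivAt γ v s) :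
    HasDerivAt (fun s => NN Φ (γ s)) (2 * (v * bb Φ (γ s)).re) s := by
  have h1 : HasDerivAt (fun s => Φ (γ s)) (v • deriv Φ (γ s)) s :=
    (hΦ (γ s)).hasDerivAt.scomp s hγ
  have h2 := HasDerivAt.inner ℂ h1 h1
  have h3 : HasDerivAt (fun s => (inner ℂ (Φ (γ s)) (Φ (γ s)) : ℂ).re)
      ((inner ℂ (Φ (γ s)) (v • deriv Φ (γ s)) + inner ℂ (v • deriv Φ (γ s)) (Φ (γ s)) : ℂ).re) s :=
    (Complex.reCLM.hasFDerivAt.comp_hasDerivAt s h2)
  have h4 : (fun s => (inner ℂ (Φ (γ s)) (Φ (γ s)) : ℂ).re) = fun s => NN Φ (γ s) := by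
    funext s
    rw [← NN_cast]; simp
  rw [h4] at h3
  refine h3.congr_deriv ?_
  rw [inner_smul_left, inner_smul_right, Complex.add_re, ← inner_conj_symm (deriv Φ (γ s)),
    ← map_mul, Complex.conj_re]
  unfold bb
  ring

/-- derivative of `⟨Φ,Φ'⟩` along a real path -/
lemma hasDerivAt_bb (hΦ : Differentiable ℂ Φ) {γ : ℝ → ℂ} {v : ℂ} {s : ℝ} (hγ : HasDerivAt γ v s) :
    HasDerivAt (fun s => bb Φ (γ s)) (v * cc Φ (γ s) + conj v * MM Φ (γ s)) s := by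
  have h1 : HasDerivAt (fun s => Φ (γ s)) (v • deriv Φ (γ s)) s :=
    (hΦ (γ s)).hasDerivAt.scomp s hγ
  have h1' : HasDerivAt (fun s => deriv Φ (γ s)) (v • deriv (deriv Φ) (γ s)) s :=
    ((differentiable_deriv hΦ) (γ s)).hasDerivAt.scomp s hγ
  have h2 := HasDerivAt.inner ℂ h1 h1'
  rw [inner_smul_left, inner_smul_right, ← MM_cast] at h2
  exact h2

lemma hasDerivAt_path_ρ (ρ θ : ℝ) : HasDerivAt (fun ρ : ℝ => (ρ : ℂ) * ee θ) (ee θ) ρ := by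
  have := (Complex.ofRealCLM.hasDerivAt (x := ρ)).mul_const (ee θ)
  simpa using this

lemma hasDerivAt_path_θ (ρ θ : ℝ) : HasDerivAt (fun θ : ℝ => (ρ : ℂ) * ee θ)
    (Complex.I * ρ * ee θ) θ := by
  exact ((hasDerivAt_ee θ).const_mul (ρ : ℂ)).congr_deriv (by ring)

omit [CompleteSpace V] in
lemma hasDerivAt_log (hΦ : Differentiable ℂ Φ) (h0 : ∀ t, Φ t ≠ 0) (ρ θ : ℝ) :
    HasDerivAt (fun ρ : ℝ => Real.log (NN Φ (ρ * ee θ)))
      (2 * (ee θ * bb Φ (ρ * ee θ)).re / NN Φ (ρ * ee θ)) ρ := by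
  have hN : NN Φ (ρ * ee θ) ≠ 0 := by
    unfold NN; exact pow_ne_zero _ (norm_ne_zero_iff.2 (h0 _))
  exact (hasDerivAt_NN hΦ (hasDerivAt_path_ρ ρ θ)).log hN

lemma hasDerivAt_hh (hΦ : Differentiable ℂ Φ) (h0 : ∀ t, Φ t ≠ 0) (ρ θ : ℝ) :
    HasDerivAt (fun ρ => hh Φ ρ θ) (hρ Φ ρ θ) ρ := by
  have hN : NN Φ (ρ * ee θ) ≠ 0 := by
    unfold NN; exact pow_ne_zero _ (norm_ne_zero_iff.2 (h0 _))
  have h1 := hasDerivAt_NN hΦ (hasDerivAt_path_ρ ρ θ)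
  have h2 := hasDerivAt_bb hΦ (hasDerivAt_path_ρ ρ θ)
  have h3 : HasDerivAt (fun ρ : ℝ => (ρ : ℂ) * (ee θ * bb Φ (ρ * ee θ)))
      (1 * (ee θ * bb Φ (ρ * ee θ)) + ρ * (ee θ * (ee θ * cc Φ (ρ * ee θ) + conj (ee θ) * MM Φ (ρ * ee θ)))) ρ :=
    (Complex.ofRealCLM.hasDerivAt (x := ρ)).mul (h2.const_mul (ee θ))
  have h4 := (Complex.reCLM.hasFDerivAt.comp_hasDerivAt ρ h3).const_mul 2
  have h5 : HasDerivAt (fun ρ => hh Φ ρ θ) _ ρ := h4.div h1 hN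
  refine h5.congr_deriv ?_
  have e1 := ee_conj θ
  have e2 : (1 * (ee θ * bb Φ (ρ * ee θ)) + ρ * (ee θ * (ee θ * cc Φ (ρ * ee θ) + conj (ee θ) * MM Φ (ρ * ee θ))) : ℂ)
      = ee θ * bb Φ (ρ * ee θ) + ρ * (ee θ * ee θ * cc Φ (ρ * ee θ) + MM Φ (ρ * ee θ)) := by
    linear_combination (ρ : ℂ) * MM Φ (ρ * ee θ) * e1
  rw [e2]
  unfold hρ
  simp only [Complex.reCLM_apply, Function.comp_apply]
  field_simp

lemma hasDerivAt_kk (hΦ : Differentiable ℂ Φ) (h0 : ∀ t, Φ t ≠ 0) (ρ θ : ℝ) :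
    HasDerivAt (fun θ => kk Φ ρ θ) (kθ Φ ρ θ) θ := by
  have hN : NN Φ (ρ * ee θ) ≠ 0 := by
    unfold NN; exact pow_ne_zero _ (norm_ne_zero_iff.2 (h0 _))
  have h1 := hasDerivAt_NN hΦ (hasDerivAt_path_θ ρ θ)
  have h2 := hasDerivAt_bb hΦ (hasDerivAt_path_θ ρ θ)
  have h3 := (hasDerivAt_ee θ).mul h2
  have h4 := (Complex.imCLM.hasFDerivAt.comp_hasDerivAt θ h3).const_mul (-2)
  have h5 : HasDerivAt (fun θ => kk Φ ρ θ) _ θ := h4.div h1 hN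
  refine h5.congr_deriv ?_
  have e1 := ee_conj θ
  have e2 : (Complex.I * ee θ * bb Φ (ρ * ee θ) + ee θ * (Complex.I * ρ * ee θ * cc Φ (ρ * ee θ) +
        conj (Complex.I * ρ * ee θ) * MM Φ (ρ * ee θ)) : ℂ)
      = Complex.I * (ee θ * bb Φ (ρ * ee θ)) + Complex.I * ρ * (ee θ * ee θ * cc Φ (ρ * ee θ) - MM Φ (ρ * ee θ)) := by
    simp only [map_mul, Complex.conj_I, Complex.conj_ofReal]
    linear_combination (-Complex.I * (ρ : ℂ) * MM Φ (ρ * ee θ)) * e1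
  rw [e2]
  have e3 : (Complex.I * ρ * ee θ * bb Φ (ρ * ee θ)).re = -ρ * (ee θ * bb Φ (ρ * ee θ)).im := by
    have : Complex.I * ρ * ee θ * bb Φ (ρ * ee θ) = Complex.I * ρ * (ee θ * bb Φ (ρ * ee θ)) := by ring
    rw [this]
    simp [Complex.mul_re]
  rw [e3]
  unfold kθ
  simp only [Complex.imCLM_apply, Function.comp_apply, Pi.mul_apply]
  field_simp
  ring

lemma continuous_bb (hΦ : Differentiable ℂ Φ) : Continuous (bb Φ) :=
  hΦ.continuous.inner (differentiable_deriv hΦ).continuous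

lemma continuous_cc (hΦ : Differentiable ℂ Φ) : Continuous (cc Φ) :=
  hΦ.continuous.inner (differentiable_deriv (differentiable_deriv hΦ)).continuous

omit [CompleteSpace V] in
lemma continuous_NN (hΦ : Differentiable ℂ Φ) : Continuous (NN Φ) := by
  unfold NN; exact hΦ.continuous.norm.pow 2

lemma continuous_MM (hΦ : Differentiable ℂ Φ) : Continuous (MM Φ) := by
  unfold MM; exact (differentiable_deriv hΦ).continuous.norm.pow 2

lemma continuous_fs (hΦ : Differentiable ℂ Φ) (h0 : ∀ t, Φ t ≠ 0) : Continuous (fsDensity Φ) := by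
  have h1 := hΦ.continuous
  have h2 := (differentiable_deriv hΦ).continuous
  have h3 : Continuous fun t => (inner ℂ (Φ t) (deriv Φ t) : ℂ) := h1.inner h2
  unfold fsDensity
  refine Continuous.div (by fun_prop) (by fun_prop) fun t => ?_
  have := norm_pos_iff.2 (h0 t)
  positivity

lemma continuous_path : Continuous (fun p : ℝ × ℝ => (p.1 : ℂ) * ee p.2) := by
  have := continuous_ee
  fun_prop

omit [CompleteSpace V] [InnerProductSpace ℂ V] in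
lemma NN_ne (h0 : ∀ t, Φ t ≠ 0) (t : ℂ) : NN Φ t ≠ 0 := by
  unfold NN; exact pow_ne_zero _ (norm_ne_zero_iff.2 (h0 _))

lemma continuous_w (hΦ : Differentiable ℂ Φ) :
    Continuous (fun p : ℝ × ℝ => ee p.2 * bb Φ (p.1 * ee p.2)) :=
  (continuous_ee.comp continuous_snd).mul ((continuous_bb hΦ).comp continuous_path)

lemma continuous_z (hΦ : Differentiable ℂ Φ) :
    Continuous (fun p : ℝ × ℝ => ee p.2 * ee p.2 * cc Φ (p.1 * ee p.2)) :=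
  ((continuous_ee.comp continuous_snd).mul (continuous_ee.comp continuous_snd)).mul
    ((continuous_cc hΦ).comp continuous_path)

omit [CompleteSpace V] [InnerProductSpace ℂ V] [NormedAddCommGroup V] in
lemma cont_aux {w z : ℝ × ℝ → ℂ} {M : ℝ × ℝ → ℝ} (hw : Continuous w) (hz : Continuous z)
    (hM : Continuous M) :
    Continuous (fun p : ℝ × ℝ => 2 * (w p + p.1 * (z p + M p)).re) ∧
    Continuous (fun p : ℝ × ℝ => 2 * (p.1 * w p).re * (2 * (w p).re)) ∧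
    Continuous (fun p : ℝ × ℝ => -2 * (Complex.I * w p + Complex.I * p.1 * (z p - M p)).im) ∧
    Continuous (fun p : ℝ × ℝ => 2 * (w p).im * (-2 * p.1 * (w p).im)) := by
  refine ⟨?_, ?_, ?_, ?_⟩ <;> fun_prop

lemma continuous_hρ (hΦ : Differentiable ℂ Φ) (h0 : ∀ t, Φ t ≠ 0) :
    Continuous (fun p : ℝ × ℝ => hρ Φ p.1 p.2) := by
  have h3 : Continuous (fun p : ℝ × ℝ => NN Φ (p.1 * ee p.2)) :=
    (continuous_NN hΦ).comp continuous_path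
  have h4 : Continuous (fun p : ℝ × ℝ => MM Φ (p.1 * ee p.2)) :=
    (continuous_MM hΦ).comp continuous_path
  have hw := continuous_w hΦ
  have hz := continuous_z hΦ
  have hN : ∀ p : ℝ × ℝ, NN Φ ((p.1 : ℂ) * ee p.2) ≠ 0 := fun p => NN_ne h0 _
  have hN2 : ∀ p : ℝ × ℝ, NN Φ ((p.1 : ℂ) * ee p.2) ^ 2 ≠ 0 := fun p => pow_ne_zero _ (hN p)
  have hA : Continuous (fun p : ℝ × ℝ => 2 * (ee p.2 * bb Φ (p.1 * ee p.2) +
      p.1 * (ee p.2 * ee p.2 * cc Φ (p.1 * ee p.2) + MM Φ (p.1 * ee p.2))).re) :=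
    (cont_aux hw hz h4).1
  have hB : Continuous (fun p : ℝ × ℝ => 2 * (p.1 * (ee p.2 * bb Φ (p.1 * ee p.2))).re *
      (2 * (ee p.2 * bb Φ (p.1 * ee p.2)).re)) := (cont_aux hw hz h4).2.1
  exact (hA.div h3 hN).sub (hB.div (h3.pow 2) hN2)

lemma continuous_kθ (hΦ : Differentiable ℂ Φ) (h0 : ∀ t, Φ t ≠ 0) :
    Continuous (fun p : ℝ × ℝ => kθ Φ p.1 p.2) := by
  have h3 : Continuous (fun p : ℝ × ℝ => NN Φ (p.1 * ee p.2)) :=
    (continuous_NN hΦ).comp continuous_path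
  have h4 : Continuous (fun p : ℝ × ℝ => MM Φ (p.1 * ee p.2)) :=
    (continuous_MM hΦ).comp continuous_path
  have hw := continuous_w hΦ
  have hz := continuous_z hΦ
  have hN : ∀ p : ℝ × ℝ, NN Φ ((p.1 : ℂ) * ee p.2) ≠ 0 := fun p => NN_ne h0 _
  have hN2 : ∀ p : ℝ × ℝ, NN Φ ((p.1 : ℂ) * ee p.2) ^ 2 ≠ 0 := fun p => pow_ne_zero _ (hN p)
  have hA : Continuous (fun p : ℝ × ℝ => -2 * (Complex.I * (ee p.2 * bb Φ (p.1 * ee p.2)) +
      Complex.I * p.1 * (ee p.2 * ee p.2 * cc Φ (p.1 * ee p.2) - MM Φ (p.1 * ee p.2))).im) :=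
    (cont_aux hw hz h4).2.2.1
  have hB : Continuous (fun p : ℝ × ℝ => 2 * (ee p.2 * bb Φ (p.1 * ee p.2)).im *
      (-2 * p.1 * (ee p.2 * bb Φ (p.1 * ee p.2)).im)) := (cont_aux hw hz h4).2.2.2
  exact (hA.div h3 hN).add (hB.div (h3.pow 2) hN2)

/-- Fubini for continuous functions on a rectangle -/
lemma swap_cont {F : ℝ → ℝ → ℝ} (hF : Continuous (Function.uncurry F)) (a b c d : ℝ) :
    ∫ x in a..b, ∫ y in c..d, F x y = ∫ y in c..d, ∫ x in a..b, F x y := by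
  have hK : IsCompact (uIcc a b ×ˢ uIcc c d) := isCompact_uIcc.prod isCompact_uIcc
  have h1 : IntegrableOn (Function.uncurry F) (uIcc a b ×ˢ uIcc c d) :=
    hF.continuousOn.integrableOn_compact hK
  have h2 : IntegrableOn (Function.uncurry F) (uIoc a b ×ˢ uIoc c d) :=
    h1.mono_set (Set.prod_mono Set.uIoc_subset_uIcc Set.uIoc_subset_uIcc)
  exact intervalIntegral_intervalIntegral_swap h2

end

end Pool.Agent.H46.Nev
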