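import Pool.Agent.H46.Nev.Jensen

set_option autoImplicit false

open MeasureTheory Set Filter Topology
open scoped Real ComplexConjugate

namespace Pool.Agent.H46.Nev

section

variable {V : Type} [NormedAddCommGroup V] [InnerProductSpace ℂ V] [CompleteSpace V] {Φ : ℂ → V}

lemma hh_eq (hΦ : Differentiable ℂ Φ) (h0 : ∀ t, Φ t ≠ 0) (s θ : ℝ) :
    hh Φ s θ = ∫ ρ in (0:ℝ)..s, hρ Φ ρ θ := by
  have h2 : Continuous (fun ρ => hρ Φ ρ θ) :=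
    Continuous.comp (g := fun p : ℝ × ℝ => hρ Φ p.1 p.2) (f := fun ρ => (ρ, θ))
      (continuous_hρ hΦ h0) (by fun_prop)
  have h3 : ∫ ρ in (0:ℝ)..s, hρ Φ ρ θ = hh Φ s θ - hh Φ 0 θ :=
    intervalIntegral.integral_eq_sub_of_hasDerivAt (f := fun ρ => hh Φ ρ θ)
      (f' := fun ρ => hρ Φ ρ θ) (fun ρ _ => hasDerivAt_hh hΦ h0 ρ θ) (h2.intervalIntegrable 0 s)
  rw [h3]
  simp [hh]

lemma integral_kθ (hΦ : Differentiable ℂ Φ) (h0 : ∀ t, Φ t ≠ 0) (ρ : ℝ) :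
    ∫ θ in (-π)..π, kθ Φ ρ θ = 0 := by
  have h2 : Continuous (fun θ => kθ Φ ρ θ) :=
    Continuous.comp (g := fun p : ℝ × ℝ => kθ Φ p.1 p.2) (f := fun θ => (ρ, θ))
      (continuous_kθ hΦ h0) (by fun_prop)
  have h3 : ∫ θ in (-π)..π, kθ Φ ρ θ = kk Φ ρ π - kk Φ ρ (-π) :=
    intervalIntegral.integral_eq_sub_of_hasDerivAt (f := fun θ => kk Φ ρ θ)
      (f' := fun θ => kθ Φ ρ θ) (fun θ _ => hasDerivAt_kk hΦ h0 ρ θ) (h2.intervalIntegrable (-π) π)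
  rw [h3]
  have h4 : ee (-π) = ee π := by
    unfold ee
    rw [Complex.ofReal_neg, neg_mul, Complex.exp_neg, Complex.exp_pi_mul_I]
    norm_num
  unfold kk
  rw [h4, sub_self]

lemma integral_hρ (hΦ : Differentiable ℂ Φ) (h0 : ∀ t, Φ t ≠ 0) (ρ : ℝ) :
    ∫ θ in (-π)..π, hρ Φ ρ θ = 4 * π * ∫ θ in (-π)..π, ρ * fsDensity Φ (ρ * ee θ) := by
  have h5 : Continuous (fun θ => kθ Φ ρ θ) :=
    Continuous.comp (g := fun p : ℝ × ℝ => kθ Φ p.1 p.2) (f := fun θ => (ρ, θ))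
      (continuous_kθ hΦ h0) (by fun_prop)
  have h6 : Continuous (fun θ => hρ Φ ρ θ) :=
    Continuous.comp (g := fun p : ℝ × ℝ => hρ Φ p.1 p.2) (f := fun θ => (ρ, θ))
      (continuous_hρ hΦ h0) (by fun_prop)
  have h7 : ∫ θ in (-π)..π, (hρ Φ ρ θ + kθ Φ ρ θ) =
      (∫ θ in (-π)..π, hρ Φ ρ θ) + ∫ θ in (-π)..π, kθ Φ ρ θ :=
    intervalIntegral.integral_add (h6.intervalIntegrable _ _) (h5.intervalIntegrable _ _)
  rw [integral_kθ hΦ h0, add_zero] at h7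
  rw [← h7, ← intervalIntegral.integral_const_mul]
  congr 1
  funext θ
  rw [hρ_add_kθ h0]
  ring

/-- `∫ h(s,θ) dθ = 4π ∫_0^s ∫ ρ fs(ρ e^{iθ}) dθ dρ` -/
lemma integral_hh (hΦ : Differentiable ℂ Φ) (h0 : ∀ t, Φ t ≠ 0) (s : ℝ) :
    ∫ θ in (-π)..π, hh Φ s θ =
      4 * π * ∫ ρ in (0:ℝ)..s, ∫ θ in (-π)..π, ρ * fsDensity Φ (ρ * ee θ) := by
  have hsw := swap_cont (F := fun ρ θ => hρ Φ ρ θ) (continuous_hρ hΦ h0) 0 s (-π) π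
  have h1 : (∫ θ in (-π)..π, hh Φ s θ) = ∫ θ in (-π)..π, ∫ ρ in (0:ℝ)..s, hρ Φ ρ θ := by
    congr 1
    funext θ
    exact hh_eq hΦ h0 s θ
  rw [h1, ← hsw, ← intervalIntegral.integral_const_mul]
  congr 1
  funext ρ
  exact integral_hρ hΦ h0 ρ

end

end Pool.Agent.H46.Nev
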