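import Pool.Agent.H46.Nev.Strip

set_option autoImplicit false

open MeasureTheory Filter Topology Set
open scoped Real LinearAlgebra.Projectivization ComplexConjugate

namespace Pool.Agent.H46.Nev

/-- `(∫_{|t|<s} ψ)/s` as a continuous function of `s` -/
noncomputable def gg (ψ : ℂ → ℝ) (s : ℝ) : ℝ :=
  ∫ u in (0:ℝ)..1, ∫ θ in (-π)..π, (s * u) * ψ (((s * u : ℝ) : ℂ) * ee θ)

lemma continuous_gg {ψ : ℂ → ℝ} (hψ : Continuous ψ) : Continuous (gg ψ) := by
  unfold gg
  have h1 : Continuous (fun q : (ℝ × ℝ) × ℝ => (q.1.1 * q.1.2) *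
      ψ (((q.1.1 * q.1.2 : ℝ) : ℂ) * ee q.2)) := by
    have := continuous_ee
    have h2 : Continuous (fun q : (ℝ × ℝ) × ℝ => ψ (((q.1.1 * q.1.2 : ℝ) : ℂ) * ee q.2)) :=
      hψ.comp (by fun_prop)
    exact (by fun_prop : Continuous (fun q : (ℝ × ℝ) × ℝ => q.1.1 * q.1.2)).mul h2
  have h3 : Continuous (fun p : ℝ × ℝ => ∫ θ in (-π)..π, (p.1 * p.2) *
      ψ (((p.1 * p.2 : ℝ) : ℂ) * ee θ)) :=
    intervalIntegral.continuous_parametric_intervalIntegral_of_continuous'
      (f := fun (p : ℝ × ℝ) (θ : ℝ) => (p.1 * p.2) * ψ (((p.1 * p.2 : ℝ) : ℂ) * ee θ)) h1 (-π) π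
  exact intervalIntegral.continuous_parametric_intervalIntegral_of_continuous'
      (f := fun (s u : ℝ) => ∫ θ in (-π)..π, (s * u) * ψ (((s * u : ℝ) : ℂ) * ee θ)) h3 0 1

lemma gg_eq {ψ : ℂ → ℝ} (hψ : Continuous ψ) {s : ℝ} (hs : 0 ≤ s) :
    (∫ t in Metric.ball (0:ℂ) s, ψ t) / s = gg ψ s := by
  rw [disc_integral hψ hs]
  rcases hs.eq_or_lt with h0 | h0
  · rw [← h0]; simp [gg]
  · have h1 := intervalIntegral.integral_comp_mul_left
      (fun ρ : ℝ => ∫ θ in (-π)..π, ρ * ψ ((ρ : ℂ) * ee θ)) h0.ne' (a := 0) (b := 1)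
    rw [mul_zero, mul_one, smul_eq_mul] at h1
    unfold gg
    rw [h1]
    field_simp

lemma nevMass_eq {a φ : ℂ → ℝ} (h : Continuous fun t => φ t * a t) {r : ℝ} (hr : 0 ≤ r) :
    nevMass a φ r = ∫ s in (0:ℝ)..r, gg (fun t => φ t * a t) s := by
  unfold nevMass
  refine intervalIntegral.integral_congr fun s hs => ?_
  rw [uIcc_of_le hr] at hs
  exact gg_eq h hs.1

lemma gg_nonneg {ψ : ℂ → ℝ} (h : ∀ t, 0 ≤ ψ t) {s : ℝ} (hs : 0 ≤ s) : 0 ≤ gg ψ s := by
  unfold gg
  have hπ : -π ≤ π := by linarith [Real.pi_pos]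
  refine intervalIntegral.integral_nonneg zero_le_one fun u hu =>
    intervalIntegral.integral_nonneg hπ fun θ _ => ?_
  exact mul_nonneg (mul_nonneg hs hu.1) (h _)

lemma gg_mono {ψ χ : ℂ → ℝ} (hψ : Continuous ψ) (hχ : Continuous χ) (h : ∀ t, ψ t ≤ χ t) {s : ℝ}
    (hs : 0 ≤ s) : gg ψ s ≤ gg χ s := by
  rw [← gg_eq hψ hs, ← gg_eq hχ hs]
  have h1 : ∫ t in Metric.ball (0:ℂ) s, ψ t ≤ ∫ t in Metric.ball (0:ℂ) s, χ t := by
    refine setIntegral_mono_on ?_ ?_ Metric.isOpen_ball.measurableSet fun t _ => h t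
    · exact (hψ.continuousOn.integrableOn_compact (isCompact_closedBall (0:ℂ) s)).mono_set
        Metric.ball_subset_closedBall
    · exact (hχ.continuousOn.integrableOn_compact (isCompact_closedBall (0:ℂ) s)).mono_set
        Metric.ball_subset_closedBall
  gcongr

lemma nevMass_mono {a φ χ : ℂ → ℝ} (h : Continuous fun t => φ t * a t)
    (h' : Continuous fun t => χ t * a t) (hle : ∀ t, φ t * a t ≤ χ t * a t) {r : ℝ} (hr : 0 ≤ r) :
    nevMass a φ r ≤ nevMass a χ r := by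
  rw [nevMass_eq h hr, nevMass_eq h' hr]
  refine intervalIntegral.integral_mono_on hr ((continuous_gg h).intervalIntegrable _ _)
    ((continuous_gg h').intervalIntegrable _ _) fun s hs => ?_
  exact gg_mono h h' hle hs.1

/-- `∫_0^r (∫_{|t|<s} ψ) ds/s` -/
noncomputable def LL (r : ℝ) (ψ : ℂ → ℝ) : ℝ := ∫ s in (0:ℝ)..r, gg ψ s

lemma intOn_ball {ψ : ℂ → ℝ} (hψ : Continuous ψ) (s : ℝ) :
    IntegrableOn ψ (Metric.ball (0:ℂ) s) :=
  (hψ.continuousOn.integrableOn_compact (isCompact_closedBall (0:ℂ) s)).mono_set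
    Metric.ball_subset_closedBall

lemma gg_add {ψ χ : ℂ → ℝ} (hψ : Continuous ψ) (hχ : Continuous χ) {s : ℝ} (hs : 0 ≤ s) :
    gg (fun t => ψ t + χ t) s = gg ψ s + gg χ s := by
  have hadd : Continuous (fun t => ψ t + χ t) := hψ.add hχ
  rw [← gg_eq hψ hs, ← gg_eq hχ hs, ← gg_eq hadd hs, ← add_div]
  congr 1
  exact integral_add (intOn_ball hψ s) (intOn_ball hχ s)

lemma gg_const_mul (c : ℝ) (ψ : ℂ → ℝ) (s : ℝ) : gg (fun t => c * ψ t) s = c * gg ψ s := by
  unfold gg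
  rw [← intervalIntegral.integral_const_mul]
  refine intervalIntegral.integral_congr fun u _ => ?_
  beta_reduce
  rw [← intervalIntegral.integral_const_mul]
  refine intervalIntegral.integral_congr fun θ _ => ?_
  ring

lemma LL_add {ψ χ : ℂ → ℝ} (hψ : Continuous ψ) (hχ : Continuous χ) {r : ℝ} (hr : 0 ≤ r) :
    LL r (fun t => ψ t + χ t) = LL r ψ + LL r χ := by
  unfold LL
  rw [← intervalIntegral.integral_add ((continuous_gg hψ).intervalIntegrable _ _)
    ((continuous_gg hχ).intervalIntegrable _ _)]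
  refine intervalIntegral.integral_congr fun s hs => ?_
  rw [uIcc_of_le hr] at hs
  exact gg_add hψ hχ hs.1

lemma LL_const_mul (c : ℝ) (ψ : ℂ → ℝ) (r : ℝ) : LL r (fun t => c * ψ t) = c * LL r ψ := by
  unfold LL
  rw [← intervalIntegral.integral_const_mul]
  exact intervalIntegral.integral_congr fun s _ => gg_const_mul c ψ s

lemma LL_mono {ψ χ : ℂ → ℝ} (hψ : Continuous ψ) (hχ : Continuous χ) (h : ∀ t, ψ t ≤ χ t) {r : ℝ}
    (hr : 0 ≤ r) : LL r ψ ≤ LL r χ :=
  intervalIntegral.integral_mono_on hr ((continuous_gg hψ).intervalIntegrable _ _)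
    ((continuous_gg hχ).intervalIntegrable _ _) fun _ hs => gg_mono hψ hχ h hs.1

/-! ### the region in the strip -/

/-- the region -/
def Reg (R0 : ℝ) : Set ℂ := {t | R0 < t.im ∧ |t.re + Real.log t.im| < 1 / 4}

lemma exp_half : Real.exp (1 / 2) ≤ 2 := by
  have h1 : Real.exp (1 / 2) ^ 2 = Real.exp 1 := by
    rw [← Real.exp_nat_mul]; norm_num
  have h2 := Real.exp_one_lt_d9
  refine le_of_sq_le_sq ?_ (by norm_num)
  rw [h1]; linarith

lemma reg_ann {R0 : ℝ} (hR0 : 1 ≤ R0) {t : ℂ} (ht : t ∈ Reg R0) : t * Complex.exp t ∈ ann := by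
  obtain ⟨h1, h2⟩ := ht
  have hy : 1 < t.im := by linarith
  have hlog : 0 ≤ Real.log t.im := Real.log_nonneg hy.le
  have hlog2 : Real.log t.im ≤ t.im - 1 := Real.log_le_sub_one_of_pos (by linarith)
  have h2' := abs_lt.1 h2
  have hx : t.re ^ 2 ≤ t.im ^ 2 := by
    apply sq_le_sq'
    · linarith
    · linarith
  set q := Real.exp (2 * (t.re + Real.log t.im)) with hq
  have hq1 : q ≤ 2 := by
    refine le_trans (Real.exp_le_exp.2 ?_) exp_half
    linarith
  have hq2 : 1 / 2 ≤ q := by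
    have h3 : Real.exp (-(1 / 2)) ≤ q := Real.exp_le_exp.2 (by linarith)
    rw [Real.exp_neg] at h3
    have h4 : (2:ℝ)⁻¹ ≤ (Real.exp (1 / 2))⁻¹ := inv_anti₀ (Real.exp_pos _) exp_half
    linarith
  have hq3 : q = Real.exp t.re ^ 2 * t.im ^ 2 := by
    rw [hq, mul_add, Real.exp_add, mul_comm 2 (Real.log _)]
    rw [show Real.exp (2 * t.re) = Real.exp t.re ^ 2 by rw [← Real.exp_nat_mul]; norm_num]
    rw [show Real.exp (Real.log t.im * 2) = t.im ^ 2 by
      rw [mul_comm, show (2:ℝ) * Real.log t.im = ((2:ℕ):ℝ) * Real.log t.im by norm_num,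
        Real.exp_nat_mul, Real.exp_log (by linarith)]]
  have hn : ‖t * Complex.exp t‖ ^ 2 = q * (1 + t.re ^ 2 / t.im ^ 2) := by
    rw [norm_mul, Complex.norm_exp, mul_pow, ← Complex.normSq_eq_norm_sq, Complex.normSq_apply, hq3]
    have : t.im ≠ 0 := by linarith
    field_simp
    ring
  have hfrac : t.re ^ 2 / t.im ^ 2 ≤ 1 := by
    rw [div_le_one (by positivity)]; exact hx
  have hfrac0 : 0 ≤ t.re ^ 2 / t.im ^ 2 := by positivity
  constructor
  · refine le_of_sq_le_sq ?_ (norm_nonneg _)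
    rw [hn]
    nlinarith
  · refine le_of_sq_le_sq ?_ (by norm_num)
    rw [hn]
    nlinarith

lemma reg_norm {R0 : ℝ} {t : ℂ} (ht : t ∈ Reg R0) : R0 ≤ ‖t‖ := by
  have h1 := Complex.im_le_norm t
  have := ht.1
  linarith

lemma reg_norm_lt {R0 s : ℝ} (hR0 : 1 ≤ R0) {t : ℂ} (ht : t ∈ Reg R0) (hs : t.im < s / 2) :
    ‖t‖ < s := by
  obtain ⟨h1, h2⟩ := ht
  have hy : 1 < t.im := by linarith
  have hlog : 0 ≤ Real.log t.im := Real.log_nonneg hy.le
  have hlog2 : Real.log t.im ≤ t.im - 1 := Real.log_le_sub_one_of_pos (by linarith)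
  have h2' := abs_lt.1 h2
  have h3 := Complex.norm_le_abs_re_add_abs_im t
  have h4 : |t.re| ≤ t.im := abs_le.2 ⟨by linarith, by linarith⟩
  have h5 : |t.im| = t.im := abs_of_pos (by linarith)
  linarith

lemma vol_reg {R0 s : ℝ} (hR0 : 1 ≤ R0) (hs : R0 ≤ s / 2) :
    volume {t : ℂ | t ∈ Reg R0 ∧ t.im < s / 2} = ENNReal.ofReal ((s / 2 - R0) / 2) ∧
    MeasurableSet {t : ℂ | t ∈ Reg R0 ∧ t.im < s / 2} := by
  have hmp : MeasurePreserving (fun z : ℂ => (z.im, z.re)) volume volume := by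
    have h1 := Complex.volume_preserving_equiv_real_prod
    have h2 : MeasurePreserving (Prod.swap : ℝ × ℝ → ℝ × ℝ) volume volume :=
      Measure.measurePreserving_swap
    exact h2.comp h1
  have hset : {t : ℂ | t ∈ Reg R0 ∧ t.im < s / 2} = (fun z : ℂ => (z.im, z.re)) ⁻¹'
      (regionBetween (fun y => -Real.log y - 1 / 4) (fun y => -Real.log y + 1 / 4) (Ioo R0 (s / 2))) := by
    ext t
    simp only [Reg, mem_ofPred_eq, mem_preimage, regionBetween, mem_Ioo, abs_lt]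
    constructor
    · rintro ⟨⟨h1, h2, h3⟩, h4⟩
      exact ⟨⟨h1, h4⟩, by linarith, by linarith⟩
    · rintro ⟨⟨h1, h4⟩, h2, h3⟩
      exact ⟨⟨h1, by linarith, by linarith⟩, h4⟩
  have hcont : ContinuousOn (fun y : ℝ => Real.log y) (Icc R0 (s / 2)) := by
    refine Real.continuousOn_log.mono fun y hy => ?_
    have : 1 ≤ y := hR0.trans hy.1
    simp only [mem_compl_iff, mem_singleton_iff]
    linarith
  have hf : IntegrableOn (fun y => -Real.log y - 1 / 4) (Ioo R0 (s / 2)) :=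
    ((hcont.neg.sub continuousOn_const).integrableOn_compact isCompact_Icc).mono_set Ioo_subset_Icc_self
  have hg : IntegrableOn (fun y => -Real.log y + 1 / 4) (Ioo R0 (s / 2)) :=
    ((hcont.neg.add continuousOn_const).integrableOn_compact isCompact_Icc).mono_set Ioo_subset_Icc_self
  have hms : MeasurableSet (regionBetween (fun y => -Real.log y - 1 / 4)
      (fun y => -Real.log y + 1 / 4) (Ioo R0 (s / 2))) :=
    measurableSet_regionBetween (Real.measurable_log.neg.sub_const _)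
      (Real.measurable_log.neg.add_const _) measurableSet_Ioo
  constructor
  · rw [hset, hmp.measure_preimage hms.nullMeasurableSet, Measure.volume_eq_prod,
      volume_regionBetween_eq_integral hf hg measurableSet_Ioo (fun y _ => by linarith)]
    congr 1
    have h1 : ((fun y => -Real.log y + 1 / 4) - fun y => -Real.log y - 1 / 4) = fun _ => (1:ℝ) / 2 := by
      funext y
      simp only [Pi.sub_apply]
      ring
    rw [h1, setIntegral_const, smul_eq_mul]
    simp only [Measure.real, Real.volume_Ioo]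
    rw [ENNReal.toReal_ofReal (by linarith)]
    ring
  · rw [hset]
    exact hmp.measurable hms

lemma gg_lower {ψ : ℂ → ℝ} (hψ : Continuous ψ) (h0 : ∀ t, 0 ≤ ψ t) {κ R0 s : ℝ} (hR0 : 1 ≤ R0)
    (hκ : 0 ≤ κ) (h : ∀ t ∈ Reg R0, κ ≤ ψ t) (hs : 4 * R0 ≤ s) : κ / 8 ≤ gg ψ s := by
  have hs0 : 0 < s := by linarith
  obtain ⟨hv, hm⟩ := vol_reg (s := s) hR0 (by linarith)
  rw [← gg_eq hψ hs0.le, le_div_iff₀ hs0]
  set B := {t : ℂ | t ∈ Reg R0 ∧ t.im < s / 2} with hB
  have hsub : B ⊆ Metric.ball (0:ℂ) s := fun t ht => by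
    rw [mem_ball_zero_iff]
    exact reg_norm_lt hR0 ht.1 ht.2
  have hint : IntegrableOn ψ (Metric.ball (0:ℂ) s) :=
    (hψ.continuousOn.integrableOn_compact (isCompact_closedBall (0:ℂ) s)).mono_set
        Metric.ball_subset_closedBall
  calc κ / 8 * s ≤ κ * ((s / 2 - R0) / 2) := by nlinarith
    _ = ∫ t in B, κ := by
      rw [setIntegral_const, smul_eq_mul, Measure.real, hv, ENNReal.toReal_ofReal (by linarith)]
      ring
    _ ≤ ∫ t in B, ψ t := by
      refine setIntegral_mono_on ?_ (hint.mono_set hsub) hm fun t ht => h t ht.1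
      exact integrableOn_const (by rw [hv]; exact ENNReal.ofReal_ne_top)
    _ ≤ ∫ t in Metric.ball (0:ℂ) s, ψ t :=
      setIntegral_mono_set hint (Eventually.of_forall fun t => h0 t) (Eventually.of_forall hsub)

lemma nevMass_lower {a φ : ℂ → ℝ} (hψ : Continuous fun t => φ t * a t)
    (h0 : ∀ t, 0 ≤ φ t * a t) {κ R0 r : ℝ} (hR0 : 1 ≤ R0)
    (hκ : 0 ≤ κ) (h : ∀ t ∈ Reg R0, κ ≤ φ t * a t) (hr : 4 * R0 ≤ r) :
    κ / 8 * (r - 4 * R0) ≤ nevMass a φ r := by
  have hr0 : 0 ≤ 4 * R0 := by linarith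
  rw [nevMass_eq hψ (by linarith)]
  have hc := continuous_gg hψ
  rw [← intervalIntegral.integral_add_adjacent_intervals (hc.intervalIntegrable 0 (4 * R0))
    (hc.intervalIntegrable (4 * R0) r)]
  have h1 : 0 ≤ ∫ s in (0:ℝ)..(4 * R0), gg (fun t => φ t * a t) s :=
    intervalIntegral.integral_nonneg hr0 fun s hs => gg_nonneg h0 hs.1
  have h2 : ∫ s in (4 * R0)..r, κ / 8 ≤ ∫ s in (4 * R0)..r, gg (fun t => φ t * a t) s :=
    intervalIntegral.integral_mono_on hr (continuous_const.intervalIntegrable _ _)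
      (hc.intervalIntegrable _ _) fun s hs => gg_lower hψ h0 hR0 hκ h hs.1
  rw [intervalIntegral.integral_const, smul_eq_mul] at h2
  linarith

/-! ### area density -/

noncomputable def κ0 : ℝ := 1 / (8 * π * 72 ^ 4)

lemma κ0_pos : 0 < κ0 := by unfold κ0; positivity

lemma fs_lower {t : ℂ} (ht : t * Complex.exp t ∈ ann) (h1 : 1 ≤ ‖t‖) :
    κ0 ≤ fsDensity (lift1 F0) t := by
  set w := t * Complex.exp t with hw
  have hexp : ‖Complex.exp t‖ ≤ 2 := by
    have h2 := ht.2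
    rw [hw, norm_mul] at h2
    nlinarith [norm_nonneg (Complex.exp t)]
  have hyw : ‖yw w‖ ≤ 3 * 2 := by
    refine norm_le_of_coords _ fun i => ?_
    fin_cases i
    · simp [yw_0]
    · simp [yw_1]
    · simpa [yw_2] using ht.2
  have he1 : ‖e1‖ ≤ 3 * 1 := by
    refine norm_le_of_coords _ fun i => ?_
    fin_cases i <;> simp [e1_0, e1_1, e1_2]
  have haw : ‖aw‖ ≤ 3 * 1 := by
    refine norm_le_of_coords _ fun i => ?_
    fin_cases i <;> simp [aw_0, aw_1, aw_2]
  have hcw : ‖cw‖ ≤ 3 * 1 := by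
    refine norm_le_of_coords _ fun i => ?_
    fin_cases i <;> simp [cw_0, cw_1, cw_2]
  have hF1 : ‖lift1 F0 t‖ ≤ 72 := by
    rw [lift1_split]
    refine (norm_add_le _ _).trans ?_
    rw [norm_smul]
    have h3 := norm_wedge_le e1 (yw w)
    have h4 := norm_wedge_le aw cw
    have h5 : ‖e1‖ * ‖yw w‖ ≤ (3 * 1) * (3 * 2) := by gcongr
    have h6 : ‖aw‖ * ‖cw‖ ≤ (3 * 1) * (3 * 1) := by gcongr
    have h7 : ‖Complex.exp t‖ * ‖wedge aw cw‖ ≤ 2 * (2 * ((3 * 1) * (3 * 1))) := by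
      gcongr
      linarith
    linarith
  rw [fsDensity_eq, deriv_lift1]
  have hnum : 1 / 4 ≤ ‖wedge (lift1 F0 t) (G1 t)‖ ^ 2 := by
    have h2 := norm_ge_of_coord (wedge (lift1 F0 t) (G1 t)) ((0, 1), (1, 2))
    have h3 : wedge (lift1 F0 t) (G1 t) ((0, 1), (1, 2)) = w := by
      simp only [wedge_apply, lift1_eq, G1, F0_0, F0_1, F0_2, G0_0, G0_1, G0_2, K0_0, K0_1, K0_2, hw]
      ring
    rw [h3] at h2
    have h4 := ht.1
    nlinarith [norm_nonneg w]
  have hpos : 0 < ‖lift1 F0 t‖ := by linarith [one_le_lift1 t]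
  have hπ := Real.pi_pos
  rw [κ0, div_le_div_iff₀ (by positivity) (by positivity)]
  have h8 : ‖lift1 F0 t‖ ^ 4 ≤ 72 ^ 4 := by gcongr
  calc 1 * (2 * π * ‖lift1 F0 t‖ ^ 4) ≤ 1 * (2 * π * 72 ^ 4) := by gcongr
    _ = 1 / 4 * (8 * π * 72 ^ 4) := by ring
    _ ≤ ‖wedge (lift1 F0 t) (G1 t)‖ ^ 2 * (8 * π * 72 ^ 4) := by gcongr

lemma area_nonneg (t : ℂ) : 0 ≤ areaDensity F0 t := by
  unfold areaDensity
  have h1 := fsDensity_nonneg F0 t
  have h2 := fsDensity_nonneg (lift1 F0) t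
  have h3 := fsDensity_nonneg (lift2 F0) t
  linarith

lemma area_lower {t : ℂ} (ht : t * Complex.exp t ∈ ann) (h1 : 1 ≤ ‖t‖) :
    κ0 ≤ areaDensity F0 t := by
  unfold areaDensity
  have h1' := fsDensity_nonneg F0 t
  have h2 := fs_lower ht h1
  have h3 := fsDensity_nonneg (lift2 F0) t
  linarith

lemma continuous_area : Continuous (areaDensity F0) :=
  ((continuous_fs differentiable_F0 F0_ne).add (continuous_fs differentiable_lift1 lift1_ne)).add
    (continuous_fs differentiable_lift2 lift2_ne)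

noncomputable def KK : ℝ := 3 * Real.log 11664

lemma nevMass_upper {r : ℝ} (hr : 0 ≤ r) : nevMass (areaDensity F0) (fun _ => 1) r ≤ KK + 18 * r := by
  have c0 := continuous_fs differentiable_F0 F0_ne
  have c1 := continuous_fs differentiable_lift1 lift1_ne
  have c2 := continuous_fs differentiable_lift2 lift2_ne
  have d0 : Continuous fun t => (1:ℝ) * fsDensity F0 t := continuous_const.mul c0
  have d1 : Continuous fun t => (1:ℝ) * fsDensity (lift1 F0) t := continuous_const.mul c1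
  have d2 : Continuous fun t => (1:ℝ) * fsDensity (lift2 F0) t := continuous_const.mul c2
  have d3 : Continuous fun t => (1:ℝ) * areaDensity F0 t := continuous_const.mul continuous_area
  have e0 : nevMass (fsDensity F0) (fun _ => 1) r ≤ Real.log 11664 + 6 * r := by
    refine nevMass_fs_le differentiable_F0 F0_ne (one_le_F0 0) hr fun t ht => ?_
    rw [← ht]
    refine log_bound (one_le_F0 t) ((norm_F0_le t).trans ?_)
    have h1 : 1 ≤ Real.exp ‖t‖ := Real.one_le_exp (norm_nonneg _)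
    have h2 : Real.exp ‖t‖ ^ 1 ≤ Real.exp ‖t‖ ^ 6 := pow_le_pow_right₀ h1 (by norm_num)
    nlinarith
  have e1 : nevMass (fsDensity (lift1 F0)) (fun _ => 1) r ≤ Real.log 11664 + 6 * r := by
    refine nevMass_fs_le differentiable_lift1 lift1_ne (one_le_lift1 0) hr fun t ht => ?_
    rw [← ht]
    refine log_bound (one_le_lift1 t) ((norm_lift1_le t).trans ?_)
    have h1 : 1 ≤ Real.exp ‖t‖ := Real.one_le_exp (norm_nonneg _)
    have h2 : Real.exp ‖t‖ ^ 2 ≤ Real.exp ‖t‖ ^ 6 := pow_le_pow_right₀ h1 (by norm_num)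
    nlinarith
  have e2 : nevMass (fsDensity (lift2 F0)) (fun _ => 1) r ≤ Real.log 11664 + 6 * r := by
    refine nevMass_fs_le differentiable_lift2 lift2_ne (one_le_lift2 0) hr fun t ht => ?_
    rw [← ht]
    exact log_bound (one_le_lift2 t) (norm_lift2_le t)
  have hsum : nevMass (areaDensity F0) (fun _ => 1) r = nevMass (fsDensity F0) (fun _ => 1) r +
      nevMass (fsDensity (lift1 F0)) (fun _ => 1) r +
      nevMass (fsDensity (lift2 F0)) (fun _ => 1) r := by
    rw [nevMass_eq d0 hr, nevMass_eq d1 hr, nevMass_eq d2 hr, nevMass_eq d3 hr]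
    have h1 := LL_add d0 d1 hr
    have d01 : Continuous (fun t => 1 * fsDensity F0 t + 1 * fsDensity (lift1 F0) t) := d0.add d1
    have h2 := LL_add d01 d2 hr
    have h3 : (fun t => (1:ℝ) * areaDensity F0 t) = fun t => (1 * fsDensity F0 t +
        1 * fsDensity (lift1 F0) t) + 1 * fsDensity (lift2 F0) t := by
      funext t
      simp only [areaDensity]
      ring
    rw [h3]
    exact h2.trans (by rw [h1]; rfl)
  rw [hsum, KK]
  linarith

end Pool.Agent.H46.Nev
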