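import Pool.Agent.H46.Nev.Curve

set_option autoImplicit false

open MeasureTheory Filter Topology Set
open scoped Real LinearAlgebra.Projectivization ComplexConjugate

namespace Pool.Agent.H46.Nev

noncomputable def e1 : E I0 := WithLp.toLp 2 ![0, 1, 0]
noncomputable def yw (w : ℂ) : E I0 := WithLp.toLp 2 ![-1, 0, w]
noncomputable def zw (w : ℂ) : E I0 := WithLp.toLp 2 ![0, 0, w]
noncomputable def aw : E I0 := WithLp.toLp 2 ![1, -1, 0]
noncomputable def bw : E I0 := WithLp.toLp 2 ![1, 0, 0]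
noncomputable def cw : E I0 := WithLp.toLp 2 ![0, 0, 1]

lemma e1_0 : e1 0 = 0 := rfl
lemma e1_1 : e1 1 = 1 := rfl
lemma e1_2 : e1 2 = 0 := rfl
lemma yw_0 (w : ℂ) : yw w 0 = -1 := rfl
lemma yw_1 (w : ℂ) : yw w 1 = 0 := rfl
lemma yw_2 (w : ℂ) : yw w 2 = w := rfl
lemma zw_0 (w : ℂ) : zw w 0 = 0 := rfl
lemma zw_1 (w : ℂ) : zw w 1 = 0 := rfl
lemma zw_2 (w : ℂ) : zw w 2 = w := rfl
lemma aw_0 : aw 0 = 1 := rfl
lemma aw_1 : aw 1 = -1 := rfl
lemma aw_2 : aw 2 = 0 := rfl
lemma bw_0 : bw 0 = 1 := rfl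
lemma bw_1 : bw 1 = 0 := rfl
lemma bw_2 : bw 2 = 0 := rfl
lemma cw_0 : cw 0 = 0 := rfl
lemma cw_1 : cw 1 = 0 := rfl
lemma cw_2 : cw 2 = 1 := rfl

/-- vector of the third component of the limit point -/
noncomputable def vw (w : ℂ) : E I2 :=
  wedge (tens e1 (wedge e1 (yw w))) (tens e1 (wedge e1 (zw w)))

/-- limit points in the strip -/
noncomputable def pw (w : ℂ) : Y := mkY e1 (wedge e1 (yw w)) (vw w)

lemma e1_ne : e1 ≠ 0 := by
  intro h
  have := congrArg (fun v : E I0 => v 1) h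
  simp [e1_1] at this

lemma wedge_e1_ne (w : ℂ) : wedge e1 (yw w) ≠ 0 := by
  intro h
  have := congrArg (fun v : E I1 => v (0, 1)) h
  simp [e1_0, e1_1, yw_0, yw_1] at this

lemma vw_ne {w : ℂ} (hw : w ≠ 0) : vw w ≠ 0 := by
  intro h
  have := congrArg (fun v : E I2 => v ((1, (0, 1)), (1, (1, 2)))) h
  simp only [vw, wedge_apply, tens_apply, e1_0, e1_1, e1_2, yw_0, yw_1, yw_2, zw_0, zw_1, zw_2,
    PiLp.zero_apply] at this
  apply hw
  linear_combination this

lemma linInd {w : ℂ} (hw : w ≠ 0) : LinearIndependent ℂ ![e1, yw w, zw w] := by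
  rw [Fintype.linearIndependent_iff]
  intro g hg
  rw [Fin.sum_univ_three] at hg
  have h0 := congrArg (fun v : E I0 => v 0) hg
  have h1 := congrArg (fun v : E I0 => v 1) hg
  have h2 := congrArg (fun v : E I0 => v 2) hg
  simp [e1_0, e1_1, e1_2, yw_0, yw_1, yw_2, zw_0, zw_1, zw_2] at h0 h1 h2
  intro i
  fin_cases i
  · exact h1
  · exact h0
  · have h0' : g 1 = 0 := h0
    rw [h0'] at h2
    simpa [hw] using h2

lemma dirVec_01 (x y z : E I0) : dirVec x y z 0 1 = tens x (wedge x z) := by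
  rw [dirVec, zero_smul, zero_add, one_smul]

lemma pw_mem {w : ℂ} (hw : w ≠ 0) : pw w ∈ D2 :=
  ⟨e1, yw w, zw w, linInd hw, by rw [point2, dirVec_01]; rfl⟩

lemma continuous_yw : Continuous yw := by
  refine (PiLp.continuous_toLp 2 _).comp (continuous_pi fun i => ?_)
  fin_cases i
  · exact continuous_const
  · exact continuous_const
  · exact continuous_id

lemma continuous_zw : Continuous zw := by
  refine (PiLp.continuous_toLp 2 _).comp (continuous_pi fun i => ?_)
  fin_cases i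
  · exact continuous_const
  · exact continuous_const
  · exact continuous_id

lemma lift1_split (t : ℂ) : lift1 F0 t =
    wedge e1 (yw (t * Complex.exp t)) + Complex.exp t • wedge aw cw := by
  rw [lift1_eq]
  ext ⟨i, j⟩
  simp only [PiLp.add_apply, PiLp.smul_apply, smul_eq_mul, wedge_apply]
  fin_cases i <;> fin_cases j <;>
  simp [F0_0, F0_1, F0_2, G0_0, G0_1, G0_2, e1_0, e1_1, e1_2, yw_0, yw_1, yw_2, aw_0, aw_1, aw_2,
    cw_0, cw_1, cw_2] <;> ring

lemma G1_split (t : ℂ) : G1 t =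
    wedge e1 (zw (t * Complex.exp t)) + Complex.exp t • wedge bw cw := by
  rw [G1]
  ext ⟨i, j⟩
  simp only [PiLp.add_apply, PiLp.smul_apply, smul_eq_mul, wedge_apply]
  fin_cases i <;> fin_cases j <;>
  simp [F0_0, F0_1, F0_2, K0_0, K0_1, K0_2, e1_0, e1_1, e1_2, zw_0, zw_1, zw_2, bw_0, bw_1, bw_2,
    cw_0, cw_1, cw_2]

lemma tendsto_f2 {α : Type} {l : Filter α} {t : α → ℂ} {w : ℂ} (hw : w ≠ 0)
    (h0 : ∀ᶠ a in l, t a ≠ 0) (h1 : Tendsto (fun a => (t a)⁻¹) l (𝓝 0))
    (h2 : Tendsto (fun a => Complex.exp (t a)) l (𝓝 0))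
    (h3 : Tendsto (fun a => t a * Complex.exp (t a)) l (𝓝 w)) :
    Tendsto (fun a => f2 F0 (t a)) l (𝓝 (pw w)) := by
  have h4 : Tendsto (fun a => (t a)⁻¹ * Complex.exp (t a)) l (𝓝 0) := by
    simpa using h1.mul h2
  have hu : Tendsto (fun a => (t a)⁻¹ • F0 (t a)) l (𝓝 e1) := by
    have : Tendsto (fun a => (WithLp.toLp 2 ![(t a)⁻¹, (t a)⁻¹ * t a, (t a)⁻¹ * Complex.exp (t a)] : E I0))
        l (𝓝 e1) := by
      refine ((PiLp.continuous_toLp 2 _).tendsto _).comp (tendsto_pi_nhds.2 fun i => ?_)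
      fin_cases i
      · exact h1
      · refine (tendsto_const_nhds (x := (1:ℂ))).congr' ?_
        filter_upwards [h0] with a ha
        exact (inv_mul_cancel₀ ha).symm
      · exact h4
    refine this.congr fun a => ?_
    ext i
    fin_cases i <;> simp [F0_0, F0_1, F0_2]
  have hG : Tendsto (fun a => (t a)⁻¹ • G0 (t a)) l (𝓝 0) := by
    have : Tendsto (fun a => (WithLp.toLp 2 ![0, (t a)⁻¹, (t a)⁻¹ * Complex.exp (t a)] : E I0))
        l (𝓝 (WithLp.toLp 2 0)) := by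
      refine ((PiLp.continuous_toLp 2 _).tendsto _).comp (tendsto_pi_nhds.2 fun i => ?_)
      fin_cases i
      · exact tendsto_const_nhds
      · exact h1
      · exact h4
    refine this.congr fun a => ?_
    ext i
    fin_cases i <;> simp [G0_0, G0_1, G0_2]
  have hl1 : Tendsto (fun a => lift1 F0 (t a)) l (𝓝 (wedge e1 (yw w))) := by
    have h5 := (tendsto_wedge (tendsto_const_nhds (x := e1))
      ((continuous_yw.tendsto w).comp h3)).add (h2.smul_const (wedge aw cw))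
    rw [zero_smul, add_zero] at h5
    exact h5.congr fun a => (lift1_split (t a)).symm
  have hg1 : Tendsto (fun a => G1 (t a)) l (𝓝 (wedge e1 (zw w))) := by
    have h5 := (tendsto_wedge (tendsto_const_nhds (x := e1))
      ((continuous_zw.tendsto w).comp h3)).add (h2.smul_const (wedge bw cw))
    rw [zero_smul, add_zero] at h5
    exact h5.congr fun a => (G1_split (t a)).symm
  have hs : Tendsto (fun a => (t a)⁻¹ • segre F0 (t a)) l (𝓝 (tens e1 (wedge e1 (yw w)))) := by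
    refine (tendsto_tens hu hl1).congr fun a => ?_
    rw [tens_smul_left]; rfl
  have hgh : Tendsto (fun a => (t a)⁻¹ • GH (t a)) l (𝓝 (tens e1 (wedge e1 (zw w)))) := by
    have h5 := (tendsto_tens hG hl1).add (tendsto_tens hu hg1)
    rw [tens_zero_left, zero_add] at h5
    refine h5.congr fun a => ?_
    rw [tens_smul_left, tens_smul_left, GH, smul_add]
  have hl2 : Tendsto (fun a => ((t a)⁻¹ * (t a)⁻¹) • lift2 F0 (t a)) l (𝓝 (vw w)) := by
    refine (tendsto_wedge hs hgh).congr fun a => ?_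
    rw [wedge_smul_smul, lift2_eq]
  have hinv : ∀ᶠ a in l, (t a)⁻¹ ≠ 0 := h0.mono fun a ha => inv_ne_zero ha
  have hp0 : Tendsto (fun a => toP (F0 (t a))) l (𝓝 (toP e1)) := by
    refine (tendsto_toP hu e1_ne).congr' ?_
    filter_upwards [hinv] with a ha
    exact toP_smul ha _
  have hp1 : Tendsto (fun a => toP (lift1 F0 (t a))) l (𝓝 (toP (wedge e1 (yw w)))) :=
    tendsto_toP hl1 (wedge_e1_ne w)
  have hp2 : Tendsto (fun a => toP (lift2 F0 (t a))) l (𝓝 (toP (vw w))) := by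
    refine (tendsto_toP hl2 (vw_ne hw)).congr' ?_
    filter_upwards [hinv] with a ha
    exact toP_smul (mul_ne_zero ha ha) _
  exact tendsto_mkY hp0 hp1 hp2

/-- the annulus -/
def ann : Set ℂ := {w | 1 / 2 ≤ ‖w‖ ∧ ‖w‖ ≤ 2}

lemma ann_ne {w : ℂ} (h : w ∈ ann) : w ≠ 0 := by
  intro h0
  have := h.1
  rw [h0, norm_zero] at this
  norm_num at this

lemma isCompact_ann : IsCompact ann := by
  have h : ann = Metric.closedBall (0:ℂ) 2 ∩ {w | 1 / 2 ≤ ‖w‖} := by
    ext w
    simp [ann, and_comm]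
  rw [h]
  exact (isCompact_closedBall (0:ℂ) 2).inter_right (isClosed_le continuous_const continuous_norm)

lemma continuousOn_pw : ContinuousOn pw ann := by
  intro w hw
  have h1 : Tendsto yw (𝓝 w) (𝓝 (yw w)) := continuous_yw.tendsto w
  have h2 : Tendsto zw (𝓝 w) (𝓝 (zw w)) := continuous_zw.tendsto w
  have h3 := tendsto_wedge (tendsto_const_nhds (x := e1)) h1
  have h4 := tendsto_wedge (tendsto_const_nhds (x := e1)) h2
  have h5 := tendsto_wedge (tendsto_tens (tendsto_const_nhds (x := e1)) h3)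
    (tendsto_tens (tendsto_const_nhds (x := e1)) h4)
  have h6 : ContinuousAt pw w := by
    exact tendsto_mkY tendsto_const_nhds (tendsto_toP h3 (wedge_e1_ne w))
      (tendsto_toP h5 (vw_ne (ann_ne hw)))
  exact h6.continuousWithinAt

lemma isCompact_Lam : IsCompact (pw '' ann) := isCompact_ann.image_of_continuousOn continuousOn_pw

lemma Lam_subset : pw '' ann ⊆ D2 := by
  rintro _ ⟨w, hw, rfl⟩
  exact pw_mem (ann_ne hw)

lemma exists_R0 (U : Set Y) (hU : IsOpen U) (hΛ : pw '' ann ⊆ U) :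
    ∃ R0 : ℝ, ∀ t : ℂ, t * Complex.exp t ∈ ann → R0 ≤ ‖t‖ → f2 F0 t ∈ U := by
  by_contra hcon
  push Not at hcon
  choose T hT1 hT2 hT3 using hcon
  obtain ⟨w, hw, φ, hφ, hlim⟩ := isCompact_ann.tendsto_subseq
    (x := fun n : ℕ => T (n + 1) * Complex.exp (T (n + 1))) (fun n => hT1 _)
  have hn : Tendsto (fun n : ℕ => ‖T (φ n + 1)‖) atTop atTop := by
    refine tendsto_atTop_mono (fun n => hT2 (φ n + 1)) ?_
    exact tendsto_atTop_add_const_right _ _
      (tendsto_natCast_atTop_atTop.comp hφ.tendsto_atTop)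
  have hne : ∀ n : ℕ, T (φ n + 1) ≠ 0 := by
    intro n h0
    have h := hT2 (φ n + 1)
    rw [h0, norm_zero] at h
    have : (0:ℝ) ≤ φ n := Nat.cast_nonneg _
    linarith
  have hinv : Tendsto (fun n : ℕ => (T (φ n + 1))⁻¹) atTop (𝓝 0) := by
    rw [tendsto_zero_iff_norm_tendsto_zero]
    simp only [norm_inv]
    exact hn.inv_tendsto_atTop
  have hexp : Tendsto (fun n : ℕ => Complex.exp (T (φ n + 1))) atTop (𝓝 0) := by
    have h1 := hinv.mul hlim
    rw [zero_mul] at h1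
    refine h1.congr fun n => ?_
    simp only [Function.comp_apply]
    rw [← mul_assoc, inv_mul_cancel₀ (hne n), one_mul]
  have hfin := tendsto_f2 (ann_ne hw) (Eventually.of_forall hne) hinv hexp hlim
  have h2 : ∀ᶠ n in atTop, f2 F0 (T (φ n + 1)) ∈ U :=
    hfin (hU.mem_nhds (hΛ ⟨w, hw, rfl⟩))
  obtain ⟨n, hn'⟩ := h2.exists
  exact hT3 _ hn'

end Pool.Agent.H46.Nev
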