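import Pool.Agent.H46.Nev.Defs

set_option autoImplicit false

open MeasureTheory Filter Topology Set
open scoped Real LinearAlgebra.Projectivization ComplexConjugate

namespace Pool.Agent.H46.Nev

section

variable {ι : Type} [Fintype ι]

lemma continuous_mkP : Continuous (mkP : {v : E ι // v ≠ 0} → P ι) :=
  continuous_coinduced_rng

lemma mkP_ind {Q : P ι → Prop} (h : ∀ v : {v : E ι // v ≠ 0}, Q (mkP v)) (p : P ι) : Q p := by
  have h2 : ∀ p : ℙ ℂ (E ι), Q p := fun p => by
    induction p using Projectivization.ind with | h v hv => exact h ⟨v, hv⟩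
  exact h2 p

lemma mkP_eq_iff (v w : {v : E ι // v ≠ 0}) : mkP v = mkP w ↔ ∃ a : ℂ, a • w.1 = v.1 :=
  Projectivization.mk_eq_mk_iff' ℂ v.1 w.1 v.2 w.2

/-- the matrix of the orthogonal projection onto the line of `v` -/
noncomputable def pr (v : E ι) : E (ι × ι) :=
  WithLp.toLp 2 fun p => v p.1 * conj (v p.2) / (‖v‖ ^ 2 : ℝ)

lemma pr_apply (v : E ι) (p : ι × ι) : pr v p = v p.1 * conj (v p.2) / (‖v‖ ^ 2 : ℝ) := rfl

lemma pr_smul {c : ℂ} (hc : c ≠ 0) (v : E ι) : pr (c • v) = pr v := by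
  ext p
  rw [pr_apply, pr_apply, norm_smul, PiLp.smul_apply, PiLp.smul_apply, smul_eq_mul, smul_eq_mul,
    map_mul]
  have h1 : c * conj c = ((‖c‖ ^ 2 : ℝ) : ℂ) := by
    rw [Complex.mul_conj, Complex.normSq_eq_norm_sq]
  have h2 : ((‖c‖ ^ 2 : ℝ) : ℂ) ≠ 0 := by
    have := norm_pos_iff.2 hc
    exact_mod_cast (by positivity : (‖c‖ ^ 2 : ℝ) ≠ 0)
  have h3 : c * v p.1 * (conj c * conj (v p.2)) = ((‖c‖ ^ 2 : ℝ) : ℂ) * (v p.1 * conj (v p.2)) := by
    rw [← h1]; ring
  rw [h3, mul_pow]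
  push_cast
  rw [mul_div_mul_left]
  exact_mod_cast h2

/-- embedding of projective space in the space of matrices -/
noncomputable def emb (p : P ι) : E (ι × ι) := pr (Projectivization.rep (K := ℂ) (V := E ι) p)

lemma emb_mk (v : {v : E ι // v ≠ 0}) : emb (mkP v) = pr v.1 := by
  obtain ⟨a, ha⟩ := Projectivization.exists_smul_eq_mk_rep ℂ v.1 v.2
  have h1 : emb (mkP v) = pr (a • v.1) := by
    rw [ha]; rfl
  rw [h1]
  exact pr_smul a.ne_zero v.1

lemma continuous_pr : Continuous (fun v : {v : E ι // v ≠ 0} => pr v.1) := by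
  refine (PiLp.continuous_toLp 2 _).comp (continuous_pi fun p => ?_)
  refine Continuous.div ?_ ?_ ?_
  · have h1 : ∀ i, Continuous fun v : {v : E ι // v ≠ 0} => v.1 i := fun i => by fun_prop
    exact (h1 _).mul (Complex.continuous_conj.comp (h1 _))
  · exact Complex.continuous_ofReal.comp (by fun_prop)
  · intro v
    have := norm_pos_iff.2 v.2
    exact Complex.ofReal_ne_zero.2 (by positivity)

lemma continuous_emb : Continuous (emb : P ι → E (ι × ι)) := by
  refine continuous_coinduced_dom.2 ?_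
  have : (emb ∘ mkP) = fun v : {v : E ι // v ≠ 0} => pr v.1 := by
    funext v
    exact emb_mk v
  rw [this]
  exact continuous_pr

lemma emb_injective : Function.Injective (emb : P ι → E (ι × ι)) := by
  intro p q hpq
  induction p using mkP_ind with | h v => ?_
  induction q using mkP_ind with | h w => ?_
  rw [emb_mk, emb_mk] at hpq
  rw [mkP_eq_iff]
  obtain ⟨v, hv⟩ := v
  obtain ⟨w, hw⟩ := w
  have hj : ∃ j, v j ≠ 0 := by
    by_contra h
    push Not at h
    exact hv (by ext j; simpa using h j)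
  obtain ⟨j, hj⟩ := hj
  have hvn : ((‖v‖ ^ 2 : ℝ) : ℂ) ≠ 0 := by
    have := norm_pos_iff.2 hv
    exact_mod_cast (by positivity : (‖v‖ ^ 2 : ℝ) ≠ 0)
  have hwn : ((‖w‖ ^ 2 : ℝ) : ℂ) ≠ 0 := by
    have := norm_pos_iff.2 hw
    exact_mod_cast (by positivity : (‖w‖ ^ 2 : ℝ) ≠ 0)
  have hjc : conj (v j) ≠ 0 := (map_ne_zero _).2 hj
  refine ⟨((‖v‖ ^ 2 : ℝ) : ℂ) / conj (v j) * (conj (w j) / ((‖w‖ ^ 2 : ℝ) : ℂ)), ?_⟩
  ext i
  have h1 := congrArg (fun z : E (ι × ι) => z (i, j)) hpq
  simp only [pr_apply] at h1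
  rw [PiLp.smul_apply, smul_eq_mul]
  field_simp at h1 ⊢
  linear_combination -h1

instance : T2Space (P ι) := T2Space.of_injective_continuous emb_injective continuous_emb

instance : CompactSpace (P ι) := by
  constructor
  have hne : ∀ v : Metric.sphere (0 : E ι) 1, v.1 ≠ 0 := fun v => ne_zero_of_mem_unit_sphere v
  have hc : Continuous (fun v : Metric.sphere (0 : E ι) 1 => (mkP ⟨v.1, hne v⟩ : P ι)) :=
    continuous_mkP.comp (f := fun v : Metric.sphere (0 : E ι) 1 => (⟨v.1, hne v⟩ : {v : E ι // v ≠ 0}))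
      (by fun_prop)
  have : (univ : Set (P ι)) =
      (fun v : Metric.sphere (0 : E ι) 1 => (mkP ⟨v.1, hne v⟩ : P ι)) '' univ := by
    symm
    rw [image_univ, range_eq_univ]
    intro p
    induction p using mkP_ind with | h v => ?_
    obtain ⟨v, hv⟩ := v
    have hn : ‖v‖ ≠ 0 := norm_ne_zero_iff.2 hv
    refine ⟨⟨((‖v‖ : ℂ)⁻¹) • v, ?_⟩, ?_⟩
    · rw [mem_sphere_zero_iff_norm, norm_smul, norm_inv, Complex.norm_real, norm_norm,
        inv_mul_cancel₀ hn]
    · rw [mkP_eq_iff]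
      exact ⟨(‖v‖ : ℂ)⁻¹, rfl⟩
  rw [this]
  exact isCompact_univ.image hc

lemma isClosedEmbedding_emb : IsClosedEmbedding (emb : P ι → E (ι × ι)) :=
  IsClosedEmbedding.of_continuous_injective_isClosedMap continuous_emb emb_injective
    continuous_emb.isClosedMap

instance : TopologicalSpace.MetrizableSpace (P ι) :=
  (isClosedEmbedding_emb (ι := ι)).isEmbedding.metrizableSpace

instance : SecondCountableTopology (P ι) :=
  (isClosedEmbedding_emb (ι := ι)).isEmbedding.secondCountableTopology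

instance : BorelSpace (P ι) := ⟨rfl⟩

variable [Nonempty ι]

lemma toP_of_ne {v : E ι} (h : v ≠ 0) : toP v = mkP ⟨v, h⟩ := by
  unfold toP
  rw [dif_pos h]

lemma toP_smul {c : ℂ} (hc : c ≠ 0) (v : E ι) : toP (c • v) = toP v := by
  by_cases h : v = 0
  · rw [h, smul_zero]
  · rw [toP_of_ne h, toP_of_ne (smul_ne_zero hc h), mkP_eq_iff]
    exact ⟨c, rfl⟩

lemma continuousAt_toP {v : E ι} (h : v ≠ 0) : ContinuousAt (toP : E ι → P ι) v := by
  have h1 : ContinuousOn (toP : E ι → P ι) {v | v ≠ 0} := by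
    rw [continuousOn_iff_continuous_domRestrict]
    have : {v : E ι | v ≠ 0}.domRestrict toP = (mkP : {v : E ι // v ≠ 0} → P ι) := by
      funext v
      exact toP_of_ne v.2
    rw [this]
    exact continuous_mkP
  exact h1.continuousAt (isOpen_ne.mem_nhds h)

lemma tendsto_toP {α : Type} {l : Filter α} {u : α → E ι} {v : E ι} (h : Tendsto u l (𝓝 v))
    (hv : v ≠ 0) : Tendsto (fun a => toP (u a)) l (𝓝 (toP v)) :=
  (continuousAt_toP hv).tendsto.comp h

lemma continuous_toP_comp {α : Type} [TopologicalSpace α] {u : α → E ι} (h : Continuous u)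
    (h0 : ∀ a, u a ≠ 0) : Continuous (fun a => toP (u a)) :=
  continuous_iff_continuousAt.2 fun a => tendsto_toP h.continuousAt.tendsto (h0 a)

end

instance : CompactSpace Y := inferInstanceAs (CompactSpace (P I0 × P I1 × P I2))
instance : T2Space Y := inferInstanceAs (T2Space (P I0 × P I1 × P I2))
instance : TopologicalSpace.MetrizableSpace Y :=
  inferInstanceAs (TopologicalSpace.MetrizableSpace (P I0 × P I1 × P I2))
instance : BorelSpace Y := inferInstanceAs (BorelSpace (P I0 × P I1 × P I2))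
instance : SecondCountableTopology Y :=
  inferInstanceAs (SecondCountableTopology (P I0 × P I1 × P I2))

lemma tendsto_mkY {α : Type} {l : Filter α} {u : α → E I0} {v : α → E I1} {w : α → E I2}
    {u' : E I0} {v' : E I1} {w' : E I2}
    (hu : Tendsto (fun a => toP (u a)) l (𝓝 (toP u')))
    (hv : Tendsto (fun a => toP (v a)) l (𝓝 (toP v')))
    (hw : Tendsto (fun a => toP (w a)) l (𝓝 (toP w'))) :
    Tendsto (fun a => mkY (u a) (v a) (w a)) l (𝓝 (mkY u' v' w')) :=
  hu.prodMk_nhds (hv.prodMk_nhds hw)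

end Pool.Agent.H46.Nev
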