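import Pool.Agent.H46.Nev.Mass

set_option autoImplicit false

open MeasureTheory Filter Topology Set
open scoped Real LinearAlgebra.Projectivization ComplexConjugate

namespace Pool.Agent.H46.Nev

lemma continuous_f2 : Continuous (f2 F0) :=
  continuous_iff_continuousAt.2 fun _ => tendsto_mkY
    (continuous_toP_comp differentiable_F0.continuous F0_ne).continuousAt.tendsto
    (continuous_toP_comp differentiable_lift1.continuous lift1_ne).continuousAt.tendsto
    (continuous_toP_comp differentiable_lift2.continuous lift2_ne).continuousAt.tendsto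

lemma continuous_phi (φ : C(Y, ℝ)) :
    Continuous fun t => φ (f2 F0 t) * areaDensity F0 t :=
  (φ.continuous.comp continuous_f2).mul continuous_area

lemma continuous_one : Continuous fun t => (1:ℝ) * areaDensity F0 t :=
  continuous_const.mul continuous_area

lemma KK_pos : 0 < KK := by
  unfold KK
  have := Real.log_pos (by norm_num : (1:ℝ) < 11664)
  linarith

/-- the lower bound for the mass of the singular locus -/
noncomputable def c0 : ℝ := κ0 / (32 * (KK + 18))

lemma c0_pos : 0 < c0 := by
  have h1 := κ0_pos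
  have h2 := KK_pos
  unfold c0
  positivity

lemma T_lower {r : ℝ} (hr : 4 ≤ r) :
    κ0 / 8 * (r - 4) ≤ nevMass (areaDensity F0) (fun _ => 1) r := by
  have h := nevMass_lower (a := areaDensity F0) (φ := fun _ => 1) (κ := κ0) (R0 := 1) (r := r)
    continuous_one (fun t => by rw [one_mul]; exact area_nonneg t) le_rfl κ0_pos.le
    (fun t ht => by
      rw [one_mul]
      exact area_lower (reg_ann le_rfl ht) (reg_norm ht)) (by linarith)
  linarith

lemma T_pos {r : ℝ} (hr : 5 ≤ r) : 0 < nevMass (areaDensity F0) (fun _ => 1) r := by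
  have h1 := T_lower (r := r) (by linarith)
  have h2 := κ0_pos
  nlinarith

/-- every Nevanlinna trace measure gives mass at least `c0` to the compact set `Λ ⊆ D2` -/
theorem trace_lower {r : ℕ → ℝ} {μ : Measure Y} [IsFiniteMeasure μ]
    (h : IsNevanlinnaTrace (f2 F0) (areaDensity F0) r μ) :
    ENNReal.ofReal c0 ≤ μ (pw '' ann) := by
  rw [Set.measure_eq_iInf_isOpen]
  refine le_iInf fun U => le_iInf fun hΛ => le_iInf fun hU => ?_
  obtain ⟨f, hf0, hf1, hf⟩ := exists_continuous_zero_one_of_isClosed (X := Y) (s := Uᶜ)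
    (t := pw '' ann) hU.isClosed_compl isCompact_Lam.isClosed
    (disjoint_left.2 fun y hy hy' => hy (hΛ hy'))
  have hV : IsOpen {y : Y | 1 / 2 < f y} := isOpen_lt continuous_const f.continuous
  obtain ⟨R', hR'⟩ := exists_R0 {y : Y | 1 / 2 < f y} hV (fun y hy => by
    have := hf1 hy
    simp only [mem_ofPred_eq, this, Pi.one_apply]
    norm_num)
  set R0 := max 1 R' with hR0
  have hR01 : 1 ≤ R0 := le_max_left _ _
  have hlow : ∀ t ∈ Reg R0, κ0 / 2 ≤ f (f2 F0 t) * areaDensity F0 t := by
    intro t ht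
    have h1 := reg_ann hR01 ht
    have h2 := reg_norm ht
    have h3 : 1 / 2 < f (f2 F0 t) := hR' t h1 ((le_max_right _ _).trans h2)
    have h4 := area_lower h1 (hR01.trans h2)
    have h5 := κ0_pos
    nlinarith
  have hratio : ∀ᶠ j in atTop, c0 ≤ nevMass (areaDensity F0) (fun t => f (f2 F0 t)) (r j) /
      nevMass (areaDensity F0) (fun _ => 1) (r j) := by
    filter_upwards [h.tendsto_r.eventually_ge_atTop (8 * R0)] with j hj
    have hr1 : 8 ≤ r j := by linarith
    have h1 := nevMass_lower (continuous_phi f)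
      (fun t => mul_nonneg (hf _).1 (area_nonneg t)) hR01 (by linarith [κ0_pos]) hlow
      (r := r j) (by linarith)
    have h2 := nevMass_upper (r := r j) (by linarith)
    have h3 := T_pos (r := r j) (by linarith)
    have h4 := κ0_pos
    have h5 := KK_pos
    rw [le_div_iff₀ h3]
    have h6 : nevMass (areaDensity F0) (fun _ => 1) (r j) ≤ (KK + 18) * r j := by nlinarith
    calc c0 * nevMass (areaDensity F0) (fun _ => 1) (r j) ≤ c0 * ((KK + 18) * r j) := by
          have := c0_pos
          gcongr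
      _ = κ0 / 32 * r j := by unfold c0; field_simp
      _ ≤ κ0 / 2 / 8 * (r j - 4 * R0) := by nlinarith
      _ ≤ _ := h1
  have hint : c0 ≤ ∫ y, f y ∂μ := ge_of_tendsto (h.tendsto_mass f) hratio
  have hUm : MeasurableSet U := hU.measurableSet
  have h7 : ∫ y, f y ∂μ ≤ ∫ y, U.indicator (fun _ => (1:ℝ)) y ∂μ := by
    refine integral_mono ?_ ((integrable_const (1:ℝ)).indicator hUm) fun y => ?_
    · exact (BoundedContinuousFunction.mkOfCompact f).integrable _
    · by_cases hy : y ∈ U
      · rw [indicator_of_mem hy]; exact (hf y).2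
      · rw [indicator_of_notMem hy]
        exact le_of_eq (hf0 hy)
  rw [integral_indicator_const _ hUm, smul_eq_mul, mul_one] at h7
  have h8 : c0 ≤ μ.real U := hint.trans h7
  exact (ENNReal.ofReal_le_ofReal h8).trans (by rw [Measure.real, ENNReal.ofReal_toReal (measure_ne_top _ _)])

/-! ### boundary terms -/

lemma A_le {r : ℝ} (hr : 1 ≤ r) :
    ∫ t in Metric.ball (0:ℂ) r, areaDensity F0 t ≤ 2 * (KK + 36 * r) := by
  have h1 := nevMass_upper (r := 2 * r) (by linarith)
  rw [nevMass_eq continuous_one (by linarith)] at h1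
  have hc := continuous_gg continuous_one
  have hn : ∀ t, 0 ≤ (1:ℝ) * areaDensity F0 t := fun t => by rw [one_mul]; exact area_nonneg t
  rw [← intervalIntegral.integral_add_adjacent_intervals (hc.intervalIntegrable 0 r)
    (hc.intervalIntegrable r (2 * r))] at h1
  have h2 : 0 ≤ ∫ s in (0:ℝ)..r, gg (fun t => (1:ℝ) * areaDensity F0 t) s :=
    intervalIntegral.integral_nonneg (by linarith) fun s hs => gg_nonneg hn hs.1
  have h3 : ∫ s in r..(2 * r), (∫ t in Metric.ball (0:ℂ) r, areaDensity F0 t) / (2 * r) ≤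
      ∫ s in r..(2 * r), gg (fun t => (1:ℝ) * areaDensity F0 t) s := by
    refine intervalIntegral.integral_mono_on (by linarith) (continuous_const.intervalIntegrable _ _)
      (hc.intervalIntegrable _ _) fun s hs => ?_
    rw [← gg_eq continuous_one (by linarith [hs.1])]
    have h4 : ∫ t in Metric.ball (0:ℂ) r, areaDensity F0 t ≤
        ∫ t in Metric.ball (0:ℂ) s, 1 * areaDensity F0 t := by
      simp only [one_mul]
      exact setIntegral_mono_set (intOn_ball continuous_area s)
        (Eventually.of_forall fun t => area_nonneg t)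
        (Eventually.of_forall (Metric.ball_subset_ball hs.1))
    have h5 : 0 ≤ ∫ t in Metric.ball (0:ℂ) s, 1 * areaDensity F0 t :=
      setIntegral_nonneg Metric.isOpen_ball.measurableSet fun t _ => hn t
    have hs0 : 0 < s := by linarith [hs.1]
    calc (∫ t in Metric.ball (0:ℂ) r, areaDensity F0 t) / (2 * r) ≤
        (∫ t in Metric.ball (0:ℂ) s, 1 * areaDensity F0 t) / (2 * r) := by gcongr
      _ ≤ (∫ t in Metric.ball (0:ℂ) s, 1 * areaDensity F0 t) / s := by
        gcongr
        exact hs.2
  rw [intervalIntegral.integral_const, smul_eq_mul] at h3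
  have h6 : (2 * r - r) * ((∫ t in Metric.ball (0:ℂ) r, areaDensity F0 t) / (2 * r)) =
      (∫ t in Metric.ball (0:ℂ) r, areaDensity F0 t) / 2 := by
    field_simp
    ring
  rw [h6] at h3
  linarith

/-- length of the image of a circle -/
noncomputable def bl (s : ℝ) : ℝ := ∫ θ in (-π)..π, √(areaDensity F0 ((s:ℂ) * ee θ))

lemma continuous_sq : Continuous (fun p : ℝ × ℝ => √(areaDensity F0 ((p.1:ℂ) * ee p.2))) :=
  (continuous_area.comp continuous_path).sqrt

lemma continuous_bl : Continuous bl :=
  intervalIntegral.continuous_parametric_intervalIntegral_of_continuous'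
    (f := fun (s θ : ℝ) => √(areaDensity F0 ((s:ℂ) * ee θ))) continuous_sq (-π) π

lemma bdry_eq {r : ℝ} (hr : 0 ≤ r) : bdryMass (areaDensity F0) r = ∫ s in (0:ℝ)..r, bl s := by
  unfold bdryMass
  refine intervalIntegral.integral_congr_ae (Eventually.of_forall fun s hs => ?_)
  rw [uIoc_of_le hr] at hs
  rw [intervalIntegral.integral_mul_const, mul_div_assoc, div_self hs.1.ne', mul_one]
  rfl

lemma amgm {x p : ℝ} (hp : 0 < p) : x ≤ (p * x ^ 2 + p⁻¹) / 2 := by
  have h1 : 0 ≤ p * (x - p⁻¹) ^ 2 := by positivity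
  have h2 : p * (x - p⁻¹) ^ 2 = p * x ^ 2 - 2 * x + p⁻¹ := by
    field_simp
    ring
  linarith

lemma bl_le {s ε : ℝ} (hs : 0 < s) (hε : 0 < ε) :
    bl s ≤ ε / 2 * (∫ θ in (-π)..π, s * areaDensity F0 ((s:ℂ) * ee θ)) + π / ε * (1 / s) := by
  have hπ : -π ≤ π := by linarith [Real.pi_pos]
  have c1 : Continuous (fun θ : ℝ => √(areaDensity F0 ((s:ℂ) * ee θ))) :=
    continuous_sq.comp (f := fun θ : ℝ => (s, θ)) (by fun_prop)
  have c2 : Continuous (fun θ : ℝ => s * areaDensity F0 ((s:ℂ) * ee θ)) :=
    continuous_const.mul ((continuous_area.comp continuous_path).comp (f := fun θ : ℝ => (s, θ))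
      (by fun_prop))
  have h1 : bl s ≤ ∫ θ in (-π)..π, (ε / 2 * (s * areaDensity F0 ((s:ℂ) * ee θ)) + (ε * s)⁻¹ / 2) := by
    refine intervalIntegral.integral_mono_on hπ (c1.intervalIntegrable _ _)
      (((continuous_const.mul c2).add continuous_const).intervalIntegrable _ _) fun θ _ => ?_
    have h2 := amgm (x := √(areaDensity F0 ((s:ℂ) * ee θ))) (p := ε * s) (by positivity)
    rw [Real.sq_sqrt (area_nonneg _)] at h2
    linarith
  refine h1.trans (le_of_eq ?_)
  have c2' : Continuous (fun θ : ℝ => ε / 2 * (s * areaDensity F0 ((s:ℂ) * ee θ))) :=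
    continuous_const.mul c2
  rw [intervalIntegral.integral_add (c2'.intervalIntegrable _ _)
    (continuous_const.intervalIntegrable _ _), intervalIntegral.integral_const_mul,
    intervalIntegral.integral_const, smul_eq_mul]
  congr 1
  field_simp
  ring

lemma bdry_le {r ε : ℝ} (hr : 1 ≤ r) (hε : 0 < ε) :
    bdryMass (areaDensity F0) r ≤ (∫ s in (0:ℝ)..1, bl s) + ε * (KK + 36 * r) + π / ε * Real.log r := by
  rw [bdry_eq (by linarith), ← intervalIntegral.integral_add_adjacent_intervals
    (continuous_bl.intervalIntegrable 0 1) (continuous_bl.intervalIntegrable 1 r)]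
  have hA := A_le hr
  rw [disc_integral continuous_area (by linarith)] at hA
  have c3 : Continuous (fun s : ℝ => ∫ θ in (-π)..π, s * areaDensity F0 ((s:ℂ) * ee θ)) :=
    intervalIntegral.continuous_parametric_intervalIntegral_of_continuous'
      (f := fun (s θ : ℝ) => s * areaDensity F0 ((s:ℂ) * ee θ))
      (continuous_fst.mul (continuous_area.comp continuous_path)) (-π) π
  have c4 : ContinuousOn (fun s : ℝ => π / ε * (1 / s)) (uIcc 1 r) := by
    rw [uIcc_of_le hr]
    refine continuousOn_const.mul (continuousOn_const.div continuousOn_id fun s hs => ?_)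
    have h1s : (1:ℝ) ≤ s := hs.1
    exact ne_of_gt (lt_of_lt_of_le one_pos h1s)
  have h1 : ∫ s in (1:ℝ)..r, bl s ≤ ∫ s in (1:ℝ)..r,
      (ε / 2 * (∫ θ in (-π)..π, s * areaDensity F0 ((s:ℂ) * ee θ)) + π / ε * (1 / s)) := by
    refine intervalIntegral.integral_mono_on hr (continuous_bl.intervalIntegrable _ _)
      (((continuous_const.mul c3).intervalIntegrable _ _).add c4.intervalIntegrable)
      fun s hs => bl_le (by linarith [hs.1]) hε
  have c3' : Continuous (fun s : ℝ => ε / 2 * ∫ θ in (-π)..π, s * areaDensity F0 ((s:ℂ) * ee θ)) :=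
    continuous_const.mul c3
  rw [intervalIntegral.integral_add (c3'.intervalIntegrable _ _)
    c4.intervalIntegrable, intervalIntegral.integral_const_mul, intervalIntegral.integral_const_mul,
    integral_one_div_of_pos one_pos (by linarith), div_one] at h1
  have h2 : ∫ s in (1:ℝ)..r, ∫ θ in (-π)..π, s * areaDensity F0 ((s:ℂ) * ee θ) ≤
      ∫ s in (0:ℝ)..r, ∫ θ in (-π)..π, s * areaDensity F0 ((s:ℂ) * ee θ) := by
    rw [← intervalIntegral.integral_add_adjacent_intervals (c3.intervalIntegrable 0 1)
      (c3.intervalIntegrable 1 r)]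
    have hπ : -π ≤ π := by linarith [Real.pi_pos]
    have : 0 ≤ ∫ s in (0:ℝ)..1, ∫ θ in (-π)..π, s * areaDensity F0 ((s:ℂ) * ee θ) :=
      intervalIntegral.integral_nonneg zero_le_one fun s hs =>
        intervalIntegral.integral_nonneg hπ fun θ _ => mul_nonneg hs.1 (area_nonneg _)
    linarith
  have h3 : ε / 2 * (∫ s in (1:ℝ)..r, ∫ θ in (-π)..π, s * areaDensity F0 ((s:ℂ) * ee θ)) ≤
      ε / 2 * (2 * (KK + 36 * r)) := by
    gcongr
    exact h2.trans hA
  linarith

lemma bdry_nonneg {r : ℝ} (hr : 0 ≤ r) : 0 ≤ bdryMass (areaDensity F0) r := by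
  rw [bdry_eq hr]
  have hπ : -π ≤ π := by linarith [Real.pi_pos]
  exact intervalIntegral.integral_nonneg hr fun s _ =>
    intervalIntegral.integral_nonneg hπ fun θ _ => Real.sqrt_nonneg _

lemma bdry_tendsto : Tendsto (fun r : ℝ => bdryMass (areaDensity F0) r /
    nevMass (areaDensity F0) (fun _ => 1) r) atTop (𝓝 0) := by
  set C1 : ℝ := ∫ s in (0:ℝ)..1, bl s with hC1
  have hC1' : 0 ≤ C1 := by
    have := bdry_nonneg (r := 1) zero_le_one
    rwa [bdry_eq zero_le_one] at this
  have hK := KK_pos
  have hκ := κ0_pos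
  have hπ := Real.pi_pos
  set C : ℝ := (C1 + (KK + 36) + 2 * π) / (κ0 / 16) with hC
  have hlim : Tendsto (fun r : ℝ => C / √(√r)) atTop (𝓝 0) :=
    tendsto_const_nhds.div_atTop (Real.tendsto_sqrt_atTop.comp Real.tendsto_sqrt_atTop)
  refine squeeze_zero' ?_ ?_ hlim
  · filter_upwards [eventually_ge_atTop (8:ℝ)] with r hr
    exact div_nonneg (bdry_nonneg (by linarith)) (T_pos (by linarith)).le
  · filter_upwards [eventually_ge_atTop (8:ℝ)] with r hr
    set q := √(√r) with hq
    have hq1 : 1 ≤ q := by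
      rw [hq, Real.one_le_sqrt, Real.one_le_sqrt]; linarith
    have hq0 : 0 < q := by linarith
    have hq2 : q ^ 2 = √r := Real.sq_sqrt (Real.sqrt_nonneg r)
    have hq4 : q ^ 4 = r := by
      rw [show q ^ 4 = (q ^ 2) ^ 2 by ring, hq2, Real.sq_sqrt (by linarith)]
    have hb := bdry_le (r := r) (ε := 1 / q) (by linarith) (by positivity)
    have hlog : Real.log r ≤ 2 * q ^ 2 := by
      have h1 : Real.log (q ^ 2) ≤ q ^ 2 - 1 := Real.log_le_sub_one_of_pos (by positivity)
      have h2 : Real.log r = 2 * Real.log (q ^ 2) := by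
        rw [← hq4, show q ^ 4 = (q ^ 2) ^ 2 by ring, Real.log_pow (q ^ 2) 2]; norm_num
      linarith
    have hT := T_lower (r := r) (by linarith)
    have hT0 := T_pos (r := r) (by linarith)
    have hT2 : κ0 / 16 * r ≤ nevMass (areaDensity F0) (fun _ => 1) r := by nlinarith
    rw [div_le_div_iff₀ hT0 hq0]
    have hb2 : bdryMass (areaDensity F0) r ≤ (C1 + (KK + 36) + 2 * π) * q ^ 3 := by
      refine hb.trans ?_
      have e1 : 1 / q * (KK + 36 * r) = KK / q + 36 * q ^ 3 := by
        rw [← hq4]; field_simp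
      have e2 : KK / q ≤ KK * q ^ 3 := by
        rw [div_le_iff₀ hq0]
        have : 1 ≤ q ^ 3 * q := by
          have := one_le_pow₀ hq1 (n := 4)
          calc (1:ℝ) ≤ q ^ 4 := this
            _ = q ^ 3 * q := by ring
        nlinarith
      have e3 : π / (1 / q) * Real.log r ≤ 2 * π * q ^ 3 := by
        have : π / (1 / q) = π * q := by field_simp
        rw [this]
        calc π * q * Real.log r ≤ π * q * (2 * q ^ 2) := by gcongr
          _ = 2 * π * q ^ 3 := by ring
      have e4 : C1 ≤ C1 * q ^ 3 := by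
        have := one_le_pow₀ hq1 (n := 3)
        nlinarith
      rw [e1]
      nlinarith
    calc bdryMass (areaDensity F0) r * q ≤ (C1 + (KK + 36) + 2 * π) * q ^ 3 * q := by gcongr
      _ = C * (κ0 / 16 * r) := by
        rw [hC, ← hq4]
        field_simp
      _ ≤ C * nevMass (areaDensity F0) (fun _ => 1) r := by
        have : 0 ≤ C := by rw [hC]; positivity
        gcongr

end Pool.Agent.H46.Nev
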